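import Pool.Agent.Run7.h439.DC.OddG
import Pool.Agent.Run7.h439.DC.Dig2
import Pool.Agent.Results.MP_a247fa_nt.CriticalPointsInSemigroups

set_option autoImplicit false

/-!
# The critical points of Chamberland's map and the digits in odd bases

We consider the odd integers in a class given by the residues of strongly additive digit functions (for example
sums of digits) in pairwise coprime odd bases, and the critical points of Chamberland's map above them. The fates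
of these critical points are distributed in every class as among all odd integers, with a power saving which is
uniform, and the assertion that all these critical points have the known fates is decided by almost all odd
integers of one class.
-/

namespace Pool.Agent.Results.MP_a247fa_nt.DigitClasses

open Filter Topology

/-- Chamberland's map. -/
noncomputable def f (x : ℝ) : ℝ := x + 1 / 4 - (2 * x + 1) / 4 * Real.cos (Real.pi * x)

/-- The `3x+1` map. -/
def T (n : ℕ) : ℕ := if n % 2 = 0 then n / 2 else (3 * n + 1) / 2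

/-- Points of attracting cycles contained in `(0,∞)`. -/
def AttractingPoint (y : ℝ) : Prop :=
  0 < y ∧ 0 < Function.minimalPeriod f y ∧ |deriv (f^[Function.minimalPeriod f y]) y| < 1

/-- The orbit of `x` converges to the cycle of `y`. -/
def Attracts (y x : ℝ) : Prop :=
  ∃ j : ℕ, Tendsto (fun k : ℕ => f^[k * Function.minimalPeriod f y + j] x) atTop (𝓝 y)

/-- `x` is attracted by the cycle `A₁ = {1, 2}` or by the cycle `A₂ = {a, f a}`, or its orbit ends in a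
point of `[1.02, 1.05]` of period two. -/
def KnownFate (a x : ℝ) : Prop :=
  Attracts 1 x ∨ Attracts a x ∨ ∃ K, f^[K] x ∈ Set.Icc (1.02 : ℝ) 1.05 ∧ f^[K + 2] x = f^[K] x

/-- The orbit of `x` is below `R + 1` for the first time at time `k`. -/
def Enters (R k : ℕ) (x : ℝ) : Prop := f^[k] x < R + 1 ∧ ∀ i < k, (R : ℝ) + 1 ≤ f^[i] x

/-- The orbits of `x` and `y` have, from some times on, the same integral parts. -/
def Merge (x y : ℝ) : Prop := ∃ i j : ℕ, ∀ k : ℕ, ⌊f^[k + i] x⌋ = ⌊f^[k + j] y⌋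

/-- `m` is the least element of a cycle of `T`. -/
def IsCycleRep (m : ℕ) : Prop := 1 ≤ m ∧ (∃ p : ℕ, 0 < p ∧ T^[p] m = m) ∧ ∀ j : ℕ, m ≤ T^[j] m

/-- `2 log n / log (4/3) + x * log 3 * √(2 log n / (log (4/3))^3)` -/
noncomputable def bound (x : ℝ) (n : ℕ) : ℝ :=
  2 / Real.log (4 / 3) * Real.log n +
    x * (Real.log 3 * Real.sqrt (2 * Real.log n / Real.log (4 / 3) ^ 3))

/-- The distribution function of the standard normal law. -/
noncomputable def Phi (x : ℝ) : ℝ :=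
  ProbabilityTheory.cdf (ProbabilityTheory.gaussianReal 0 1) x

/-- `W` is strongly `q`-additive: `W(n)` is the sum of the values of `W` at the digits of `n` in base `q`. -/
def StronglyAdditive (q : ℕ) (W : ℕ → ℤ) : Prop := ∀ n r : ℕ, r < q → W (q * n + r) = W n + W r

/-- There is no prime `p ∣ m` such that `W(r) ≡ r W(1)` modulo `p` for all `r ≤ q`. For the sum of the
digits in base `q` this says that `m` is coprime to `q - 1`. -/
def Unobstructed (q : ℕ) (W : ℕ → ℤ) (m : ℕ) : Prop :=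
  ∀ p : ℕ, p.Prime → p ∣ m → ∃ r : ℕ, r ≤ q ∧ ¬ W r ≡ r * W 1 [ZMOD p]

/-- The data: pairwise coprime odd bases `q i ≥ 3`, strongly `q i`-additive functions `W i` with integer
values, and moduli `m i ≥ 1` without obstruction. -/
structure Data {l : ℕ} (q m : Fin l → ℕ) (W : Fin l → ℕ → ℤ) : Prop where
  odd : ∀ i, 3 ≤ q i ∧ q i % 2 = 1
  coprime : ∀ i j, i ≠ j → Nat.Coprime (q i) (q j)
  additive : ∀ i, StronglyAdditive (q i) (W i)
  pos : ∀ i, 1 ≤ m i
  free : ∀ i, Unobstructed (q i) (W i) (m i)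

/-- the class: `W i (n) ≡ a i` modulo `m i` for all `i` -/
def InClass {l : ℕ} (m : Fin l → ℕ) (W : Fin l → ℕ → ℤ) (a : Fin l → ℤ) (n : ℕ) : Prop :=
  ∀ i, W i n ≡ a i [ZMOD m i]

/-- the number of the odd positive `n ≤ X` with the property `P` -/
noncomputable def count (P : ℕ → Prop) (X : ℕ) : ℝ := ({n : ℕ | n ≤ X ∧ n % 2 = 1 ∧ P n}.ncard : ℝ)

/-- Among the odd positive integers those with the property `P` have natural density `d`. -/
def HasDensity (P : ℕ → Prop) (d : ℝ) : Prop := Tendsto (fun X : ℕ => 2 / (X : ℝ) * count P X) atTop (𝓝 d)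

open Pool.Agent.Run7.h439.DC
open Pool.Agent.H319R3.GC (Tm Adm)
open Pool.Agent.Y965.PL (Mn MnS th ind ind_pos ind_neg ind_congr ind_nonneg)
open Pool.Agent.Y965.PS (Tz ac)
open Pool.Agent.H723R2.LSW (Mer Wild)
open Pool.Agent.Results.MP_a247fa_nt.CriticalPointsInSemigroups (Fol)

theorem count_ind (P : ℕ → Prop) (X : ℕ) : count P X = ∑ n ∈ Finset.Icc 1 X, ind (fun n => n % 2 = 1 ∧ P n) n := by
  classical
  have key : ∀ Q : ℕ → Prop, ∑ n ∈ Finset.Icc 1 X, ind Q n = (((Finset.Icc 1 X).filter Q).card : ℝ) := by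
    intro Q
    unfold ind
    rw [Finset.sum_boole]
  rw [key]
  unfold count
  have e : {n : ℕ | n ≤ X ∧ n % 2 = 1 ∧ P n} = ((Finset.Icc 1 X).filter fun n => n % 2 = 1 ∧ P n : Finset ℕ) := by
    ext n
    simp only [Set.mem_ofPred_eq, Finset.coe_filter, Finset.mem_Icc]
    constructor
    · rintro ⟨h1, h2, h3⟩
      exact ⟨⟨by omega, h1⟩, h2, h3⟩
    · rintro ⟨h1, h2, h3⟩
      exact ⟨h1.2, h2, h3⟩
  rw [e, Set.ncard_coe_finset]
  congr

theorem count_cl {l : ℕ} {m : Fin l → ℕ} {W : Fin l → ℕ → ℤ} {a : Fin l → ℤ} (P : ℕ → Prop) (X : ℕ) :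
    count (fun n => InClass m W a n ∧ P n) X =
      ∑ n ∈ Finset.Icc 1 X, ind (Ed m W a) n * ind (fun n : ℕ => n % 2 = 1 ∧ P n) n := by
  rw [count_ind]
  apply Finset.sum_congr rfl
  intro n _
  rw [← ind_and]
  apply ind_congr
  have e : InClass m W a n ↔ Ed m W a n := Ed_iff
  rw [e]
  tauto

theorem dens_cl {l : ℕ} {m : Fin l → ℕ} {W : Fin l → ℕ → ℤ} {a : Fin l → ℤ} {P : ℕ → Prop} {δ : ℝ}
    (h : MnS id (ind (fun n : ℕ => Ed m W a n ∧ n % 2 = 1 ∧ P n)) (δ / 2)) :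
    HasDensity (fun n => InClass m W a n ∧ P n) δ := by
  unfold HasDensity
  have h1 := Filter.Tendsto.const_mul 2 h
  rw [mul_div_cancel₀ δ (by norm_num : (2 : ℝ) ≠ 0)] at h1
  refine h1.congr fun X => ?_
  rw [count_cl]
  have e : ∑ n ∈ Finset.Icc 1 X, ind (fun n : ℕ => Ed m W a n ∧ n % 2 = 1 ∧ P n) (id n) =
      ∑ n ∈ Finset.Icc 1 X, ind (Ed m W a) n * ind (fun n : ℕ => n % 2 = 1 ∧ P n) n := by
    apply Finset.sum_congr rfl
    intro n _
    rw [← ind_and]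
    rfl
  rw [e]
  ring

theorem dens_unique {P : ℕ → Prop} {a b : ℝ} (h : HasDensity P a) (h' : HasDensity P b) : a = b := tendsto_nhds_unique h h'

theorem dens_none {P : ℕ → Prop} (h : ∀ n, n % 2 = 1 → ¬ P n) : HasDensity P 0 := by
  unfold HasDensity
  refine tendsto_const_nhds.congr fun N => ?_
  have e : {n : ℕ | n ≤ N ∧ n % 2 = 1 ∧ P n} = ∅ := by
    rw [Set.eq_empty_iff_forall_notMem]
    rintro n ⟨_, h1, hn⟩
    exact h n h1 hn
  unfold count
  rw [e]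
  simp

theorem bound_th (x : ℝ) (n : ℕ) : th (2 / Real.log (4 / 3)) bH x n = bound x n := by
  unfold th bH bound
  have e : Real.sqrt (2 * Real.log n / Real.log (4 / 3) ^ 3) = Real.sqrt (2 / Real.log (4 / 3) ^ 3) * Real.sqrt (Real.log n) := by
    have h4 := Real.log_pos (by norm_num : (1 : ℝ) < 4 / 3)
    rw [← Real.sqrt_mul (by positivity)]
    congr 1
    ring
  rw [e]
  ring

/-- densities among the odd integers from relative frequencies -/
theorem mn_of_rel {P : ℕ → Prop} {d : ℝ}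
    (h : Tendsto (fun X : ℕ => ({n : ℕ | n ≤ X ∧ n ∈ {n : ℕ | n % 2 = 1} ∧ P n}.ncard : ℝ) /
      {n : ℕ | n ≤ X ∧ n ∈ {n : ℕ | n % 2 = 1}}.ncard) atTop (𝓝 d)) :
    Mn (ind (fun n => n % 2 = 1 ∧ P n)) (d / 2) := by
  classical
  have h0 : Tendsto (fun X : ℕ => (∑ n ∈ Finset.Icc 1 X, ind (fun n => n % 2 = 1) n) / (X : ℝ)) atTop (𝓝 (1 / 2)) :=
    Pool.Agent.Y965.PL.Mn_odd
  have h1 := h.mul h0
  have e : d * (1 / 2) = d / 2 := by ring
  rw [e] at h1
  refine Tendsto.congr' ?_ h1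
  filter_upwards [eventually_ge_atTop 1] with X hX
  have hc1 : ({n : ℕ | n ≤ X ∧ n % 2 = 1 ∧ P n}.ncard : ℝ) =
      ∑ n ∈ Finset.Icc 1 X, ind (fun n => n % 2 = 1 ∧ P n) n := count_ind P X
  have hc2 : ({n : ℕ | n ≤ X ∧ n % 2 = 1}.ncard : ℝ) = ∑ n ∈ Finset.Icc 1 X, ind (fun n => n % 2 = 1) n := by
    have h2 := count_ind (fun _ => True) X
    have e1 : {n : ℕ | n ≤ X ∧ n % 2 = 1 ∧ True} = {n : ℕ | n ≤ X ∧ n % 2 = 1} := by
      ext n; simp
    unfold count at h2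
    rw [e1] at h2
    rw [h2]
    apply Finset.sum_congr rfl
    intro n _
    exact ind_congr (by simp)
  have hpos : (0 : ℝ) < ∑ n ∈ Finset.Icc 1 X, ind (fun n => n % 2 = 1) n := by
    have h3 : ind (fun n : ℕ => n % 2 = 1) 1 ≤ ∑ n ∈ Finset.Icc 1 X, ind (fun n => n % 2 = 1) n :=
      Finset.single_le_sum (f := ind (fun n : ℕ => n % 2 = 1)) (fun n _ => ind_nonneg _ n) (Finset.mem_Icc.2 ⟨le_rfl, hX⟩)
    rw [ind_pos (P := fun n : ℕ => n % 2 = 1) (by norm_num : 1 % 2 = 1)] at h3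
    linarith
  show ({n : ℕ | n ≤ X ∧ n % 2 = 1 ∧ P n}.ncard : ℝ) / ({n : ℕ | n ≤ X ∧ n % 2 = 1}.ncard : ℝ) *
      ((∑ n ∈ Finset.Icc 1 X, ind (fun n => n % 2 = 1) n) / (X : ℝ)) = _
  rw [hc1, hc2, div_mul_div_comm, mul_comm (∑ n ∈ Finset.Icc 1 X, ind (fun n => n % 2 = 1) n) (X : ℝ),
    mul_div_mul_right _ _ hpos.ne']

theorem zT (k n : ℕ) : (Tz 1)^[k] (n : ℤ) = ((T^[k] n : ℕ) : ℤ) :=
  Pool.Agent.Results.MP_a247fa_nt.CriticalPointsInSemigroups.zT k n

theorem floor_iter {n : ℕ} (hn : 1 ≤ n) {x : ℝ} (h : Fol n x) (k : ℕ) : ⌊f^[k] x⌋ = (Tz 1)^[k] (n : ℤ) := by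
  rw [zT]
  exact Pool.Agent.Results.MP_a247fa_nt.CriticalPointsInSemigroups.fol_floor hn h k

theorem enters_fe {R k : ℕ} {n : ℕ} (hn : 1 ≤ n) {x : ℝ} (h : Fol n x) :
    FE (Tz 1) (fun y => 0 ≤ y ∧ y ≤ (R : ℤ)) k (n : ℤ) ↔ Enters R k x := by
  have h1 : ∀ i : ℕ, (0 ≤ (Tz 1)^[i] (n : ℤ) ∧ (Tz 1)^[i] (n : ℤ) ≤ (R : ℤ)) ↔ f^[i] x < R + 1 := by
    intro i
    rw [← floor_iter hn h i]
    have h0 : 0 ≤ ⌊f^[i] x⌋ := by
      rw [floor_iter hn h i, zT]
      positivity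
    constructor
    · rintro ⟨_, h2⟩
      have h3 := Int.lt_floor_add_one (f^[i] x)
      have h4 : ((⌊f^[i] x⌋ : ℤ) : ℝ) ≤ R := by exact_mod_cast h2
      linarith
    · intro h2
      refine ⟨h0, ?_⟩
      have h3 : ⌊f^[i] x⌋ < (R : ℤ) + 1 := Int.floor_lt.2 (by push_cast; exact h2)
      omega
  unfold FE Enters
  dsimp only
  rw [h1]
  refine and_congr_right fun _ => forall₂_congr fun i _ => ?_
  rw [h1, not_lt]

/-- THE CRITICAL POINTS OF CHAMBERLAND'S MAP ABOVE THE ODD INTEGERS OF DIGIT CLASSES. For odd `n` let `c n` be the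
critical point of `f` in `(n, n + 1/2)`. Densities are taken among the odd positive integers.

(1) (Uniform transfer.) For all data `q, m, W` there are `K` and `κ > 0` such that for every set `S` of odd integers
which contains with `i` all odd `j` such that the orbits of `c i` and `c j` merge, all classes and all `X ≥ 1` the
number of the odd `n ≤ X` in the class with `n ∈ S` is `∏ 1 / m i` times the number of all odd `n ≤ X` with `n ∈ S`,
up to `K X ^ (1 - κ)`.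

(2) For all data and all `R` there are `K` and `κ > 0` such that for all sets `B` of pairs of a time and an integer,
all classes and all `X ≥ 1` the same holds for the odd `n` for which the orbit of `c n` is below `R + 1` for the
first time at a time `k` such that the pair of `k` and the integral part of `f ^ k (c n)` is in `B`.

(3) There are numbers `β j > 0` (`j` odd) and `w`, such that the `β j` of the least elements `j` of the cycles of
the `3x+1` map and `w` add up to `1`, with the following properties. In every class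

* the critical points `c n` of known fate have density `(∏ 1 / m i) (β 1)`,
* those whose orbit is below `2` for the first time at a time `k ≡ b` modulo `r`, at most
  `2 log n / log (4/3) + x log 3 √(2 log n / (log (4/3))^3)`, have density `(∏ 1 / m i) (β 1) Φ(x) / r`,
* those whose orbits merge with the orbit of `c j` have density `(∏ 1 / m i) (β j)`,
* those whose orbits tend to infinity have density `(∏ 1 / m i) w`; `w = 0` if and only if there are none.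

(4) All `c n`, `n` odd, are of known fate if and only if there are data and a class such that almost all `c n`,
`n` odd in the class, are of known fate. -/
theorem result : ∃ (a : ℝ) (c : ℕ → ℝ) (w : ℝ) (β : ℕ → ℝ),
    (a ∈ Set.Icc (1.19 : ℝ) 1.196 ∧ f (f a) = a ∧
      ∀ y, y = 1 ∨ y = 2 ∨ y = a ∨ y = f a → AttractingPoint y) ∧
    (∀ n : ℕ, n % 2 = 1 → (n : ℝ) < c n ∧ c n < n + 1 / 2 ∧ deriv f (c n) = 0 ∧
      ∀ x : ℝ, (n : ℝ) < x → x < n + 1 / 2 → deriv f x = 0 → x = c n) ∧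
    (∀ (l : ℕ) (q m : Fin l → ℕ) (W : Fin l → ℕ → ℤ), Data q m W → ∃ K κ : ℝ, 0 < κ ∧
      ∀ S : Set ℕ, (∀ i j : ℕ, i % 2 = 1 → j % 2 = 1 → i ∈ S → Merge (c j) (c i) → j ∈ S) →
      ∀ (t : Fin l → ℤ) (X : ℕ), 1 ≤ X →
        |count (fun n => InClass m W t n ∧ n ∈ S) X - (∏ i, 1 / (m i : ℝ)) * count (fun n => n ∈ S) X| ≤
          K * (X : ℝ) ^ (1 - κ)) ∧
    (∀ (l : ℕ) (q m : Fin l → ℕ) (W : Fin l → ℕ → ℤ), Data q m W → ∀ R : ℕ, ∃ K κ : ℝ, 0 < κ ∧
      ∀ (B : Set (ℕ × ℤ)) (t : Fin l → ℤ) (X : ℕ), 1 ≤ X →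
        |count (fun n => InClass m W t n ∧ ∃ k, Enters R k (c n) ∧ (k, ⌊f^[k] (c n)⌋) ∈ B) X -
          (∏ i, 1 / (m i : ℝ)) * count (fun n => ∃ k, Enters R k (c n) ∧ (k, ⌊f^[k] (c n)⌋) ∈ B) X| ≤
          K * (X : ℝ) ^ (1 - κ)) ∧
    ((∀ j : ℕ, j % 2 = 1 → 0 < β j) ∧ HasSum (fun j : {j : ℕ // IsCycleRep j} => β j) (1 - w) ∧
      (w = 0 ↔ ∀ n : ℕ, n % 2 = 1 → ¬ Tendsto (fun k : ℕ => f^[k] (c n)) atTop atTop) ∧
      ∀ (l : ℕ) (q m : Fin l → ℕ) (W : Fin l → ℕ → ℤ), Data q m W → ∀ t : Fin l → ℤ,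
        HasDensity (fun n => InClass m W t n ∧ KnownFate a (c n)) ((∏ i, 1 / (m i : ℝ)) * β 1) ∧
        (∀ (r : ℕ) (b : ℤ) (x : ℝ), 1 ≤ r →
          HasDensity (fun n => InClass m W t n ∧ ∃ k : ℕ, Enters 1 k (c n) ∧ (k : ℝ) ≤ bound x n ∧
            (k : ℤ) ≡ b [ZMOD r]) ((∏ i, 1 / (m i : ℝ)) * (β 1 * Phi x / r))) ∧
        (∀ j : ℕ, j % 2 = 1 →
          HasDensity (fun n => InClass m W t n ∧ Merge (c n) (c j)) ((∏ i, 1 / (m i : ℝ)) * β j)) ∧
        HasDensity (fun n => InClass m W t n ∧ Tendsto (fun k : ℕ => f^[k] (c n)) atTop atTop)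
          ((∏ i, 1 / (m i : ℝ)) * w)) ∧
    ((∀ n : ℕ, n % 2 = 1 → KnownFate a (c n)) ↔
      ∃ (l : ℕ) (q m : Fin l → ℕ) (W : Fin l → ℕ → ℤ) (t : Fin l → ℤ), Data q m W ∧
        HasDensity (fun n => InClass m W t n ∧ ¬ KnownFate a (c n)) 0) := by
  classical
  obtain ⟨a, c, w, β, ⟨ha, hfa, hattr⟩, hc, ⟨hKF, hK1, _⟩, hlaw, _, hmrg, ⟨hw, hw0⟩, hsum, hE, _, hpr⟩ :=
    Pool.Agent.Results.MP_a247fa_nt.CriticalPointsInSemigroups.result
  -- the orbits of the critical points follow the trajectories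
  obtain ⟨a', _, _, huniq, _, _, _, hodd⟩ := Pool.Agent.Results.MP_a247fa_nt.OddCriticalPoints.result
  have hfol : ∀ n : ℕ, n % 2 = 1 → Fol n (c n) := by
    intro n hn
    obtain ⟨c', h1, h2, h3, h4, h5, _, _⟩ := hodd n hn
    have e : c n = c' := h4 (c n) (hc n hn).1 (hc n hn).2.1 (hc n hn).2.2.1
    rw [e]
    exact fun k => h5 k
  -- the odd integers
  obtain ⟨hms, c₀, hc₀, x₀, hmp⟩ := hpr 1 0 {0} le_rfl (Set.mem_singleton 0) (by norm_num)
  have hEe : Pool.Agent.Results.MP_a247fa_nt.CriticalPointsInSemigroups.OddPrimesIn 1 {0} = {n : ℕ | n % 2 = 1} := by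
    ext n
    show (Odd n ∧ ∀ p : ℕ, p.Prime → p ∣ n → ∃ a ∈ ({0} : Set ℕ), p % 1 = a % 1) ↔ n % 2 = 1
    rw [Nat.odd_iff]
    refine and_iff_left_of_imp fun _ p _ _ => ⟨0, rfl, ?_⟩
    rw [Nat.mod_one, Nat.mod_one]
  rw [hEe] at hms hmp
  have hrel : ∀ {P : ℕ → Prop} {d : ℝ}, Pool.Agent.Results.MP_a247fa_nt.CriticalPointsInSemigroups.Relative P d →
      Mn (ind (fun n => n % 2 = 1 ∧ P n)) (d / 2) := by
    intro P d h
    exact mn_of_rel ((hE P d h).2 c₀ x₀ {n : ℕ | n % 2 = 1} hc₀ hms hmp)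
  have hDD : ∀ {l : ℕ} {q m : Fin l → ℕ} {W : Fin l → ℕ → ℤ}, Data q m W → DD 2 q m W := by
    intro l q m W hD
    refine ⟨fun i => (hD.odd i).1, fun i => ?_, hD.coprime, hD.additive, hD.pos, hD.free⟩
    rw [Nat.coprime_two_left]
    exact Nat.odd_iff.2 (hD.odd i).2
  -- merging
  have hmer : ∀ i j : ℕ, i % 2 = 1 → j % 2 = 1 → (Merge (c i) (c j) ↔ Mer (i : ℤ) (j : ℤ)) := fun i j hi hj =>
    Pool.Agent.Results.MP_a247fa_nt.CriticalPointsInSemigroups.merge_iff (by omega) (by omega) (hfol i hi) (hfol j hj)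
  -- saturated sets
  have hsat : ∀ S : Set ℕ, (∀ i j : ℕ, i % 2 = 1 → j % 2 = 1 → i ∈ S → Merge (c j) (c i) → j ∈ S) →
      ∃ S' : Set ℤ, (∀ x, x ∈ S' ↔ Tz 1 x ∈ S') ∧ ∀ n : ℕ, n % 2 = 1 → (1 * (n : ℤ) ∈ S' ↔ n ∈ S) := by
    intro S hS
    refine ⟨{x | ∃ i : ℕ, i % 2 = 1 ∧ i ∈ S ∧ Mer x i}, fun x => ?_, fun n hn => ?_⟩
    · constructor
      · rintro ⟨i, h1, h2, h3⟩
        exact ⟨i, h1, h2, (Pool.Agent.Results.MP_a247fa_nt.CriticalPointsInSemigroups.mer_T i x).1 h3⟩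
      · rintro ⟨i, h1, h2, h3⟩
        exact ⟨i, h1, h2, (Pool.Agent.Results.MP_a247fa_nt.CriticalPointsInSemigroups.mer_T i x).2 h3⟩
    · rw [one_mul]
      constructor
      · rintro ⟨i, h1, h2, h3⟩
        exact hS i n h1 hn h2 ((hmer n i hn h1).2 h3)
      · intro h
        exact ⟨n, hn, h, ⟨0, 0, rfl⟩⟩
  have hTr : ∀ {l : ℕ} {q m : Fin l → ℕ} {W : Fin l → ℕ → ℤ}, Data q m W → ∃ C κ : ℝ, 0 ≤ C ∧ 0 < κ ∧
      ∀ S : Set ℕ, (∀ i j : ℕ, i % 2 = 1 → j % 2 = 1 → i ∈ S → Merge (c j) (c i) → j ∈ S) → ∀ t : Fin l → ℤ,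
        CT (Ed m W t) (∏ i, (1 / (m i : ℝ))) C κ (ind (fun n => n % 2 = 1 ∧ n ∈ S)) := by
    intro l q m W hD
    obtain ⟨C, κ, hC, hκ, _, H⟩ := set_ct_odd (hDD hD)
    refine ⟨C, κ, hC, hκ, fun S hS t => ?_⟩
    obtain ⟨S', h1, h2⟩ := hsat S hS
    refine (H 1 (Or.inl rfl) S' h1 t).congr fun n => ?_
    apply ind_congr
    exact and_congr_right fun hn => h2 n hn
  have hden : ∀ {l : ℕ} {q m : Fin l → ℕ} {W : Fin l → ℕ → ℤ}, Data q m W → ∀ t : Fin l → ℤ, ∀ P : ℕ → Prop,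
      (∀ i j : ℕ, i % 2 = 1 → j % 2 = 1 → P i → Merge (c j) (c i) → P j) → ∀ d : ℝ,
      Mn (ind (fun n => n % 2 = 1 ∧ P n)) (d / 2) →
      HasDensity (fun n => InClass m W t n ∧ P n) ((∏ i, 1 / (m i : ℝ)) * d) := by
    intro l q m W hD t P hP d hd
    obtain ⟨C, κ, hC, hκ, H⟩ := hTr hD
    obtain ⟨hρ0, hρ1⟩ := rho01 hD.pos
    have h1 := cls_set hρ0.le hρ1 hκ (H {n | P n} (fun i j hi hj h h' => hP i j hi hj h h') t) hd
    apply dens_cl
    rw [mul_div_assoc]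
    exact h1
  -- invariance under merging
  have hTn : ∀ n : ℕ, n % 2 = 1 → (Tendsto (fun k : ℕ => f^[k] (c n)) atTop atTop ↔ Wild (n : ℤ)) := fun n hn =>
    Pool.Agent.Results.MP_a247fa_nt.CriticalPointsInSemigroups.fol_tendsto (by omega) (hfol n hn)
  have hEnt : ∀ n : ℕ, n % 2 = 1 → (KnownFate a (c n) ↔ Mer (n : ℤ) (1 : ℤ)) := by
    intro n hn
    obtain ⟨c', h1, h2, h3, h4, h5, h6, _⟩ := hodd n hn
    have e : c n = c' := h4 (c n) (hc n hn).1 (hc n hn).2.1 (hc n hn).2.2.1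
    have hau : a' = a := (huniq a ⟨ha.1, by linarith [ha.2]⟩ hfa).symm
    have h7 : (∃ k, T^[k] n = 1) ↔ KnownFate a (c n) := by
      rw [e, ← hau]
      exact h6
    have h8 : Mer (n : ℤ) ((1 : ℕ) : ℤ) ↔ ∃ k, T^[k] n = 1 :=
      Pool.Agent.Results.MP_a247fa_nt.CriticalPointsInSemigroups.reach_mer (m := 1) (p := 2) (by norm_num) rfl
    rw [← h7, ← h8]
    exact Iff.rfl
  have hI1 : ∀ i j : ℕ, i % 2 = 1 → j % 2 = 1 → KnownFate a (c i) → Merge (c j) (c i) → KnownFate a (c j) := by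
    intro i j hi hj h h'
    rw [hEnt j hj]
    exact ((hmer j i hj hi).1 h').trans ((hEnt i hi).1 h)
  have hI2 : ∀ i j : ℕ, i % 2 = 1 → j % 2 = 1 → ¬ KnownFate a (c i) → Merge (c j) (c i) → ¬ KnownFate a (c j) := by
    intro i j hi hj h h' h2
    apply h
    rw [hEnt i hi]
    exact ((hmer j i hj hi).1 h').symm.trans ((hEnt j hj).1 h2)
  have hI3 : ∀ i j : ℕ, i % 2 = 1 → j % 2 = 1 → Tendsto (fun k : ℕ => f^[k] (c i)) atTop atTop → Merge (c j) (c i) →
      Tendsto (fun k : ℕ => f^[k] (c j)) atTop atTop := by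
    intro i j hi hj h h'
    rw [hTn j hj]
    exact Pool.Agent.H723R2.LSW.wild_mer ((hmer j i hj hi).1 h').symm ((hTn i hi).1 h)
  refine ⟨a, c, w, β, ⟨ha, hfa, hattr⟩, hc, fun l q m W hD => ?_, fun l q m W hD R => ?_,
    ⟨fun j hj => (hmrg j hj).1, hsum, hw0, fun l q m W hD t => ⟨?_, fun r b x hr => ?_, fun j hj => ?_, ?_⟩⟩, fun h => ?_, ?_⟩
  · obtain ⟨C, κ, hC, hκ, H⟩ := hTr hD
    refine ⟨C, κ, hκ, fun S hS t X hX => ?_⟩
    rw [count_cl, count_ind]
    exact (H S hS t).tr X hX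
  · obtain ⟨C, κ, hC, hκ, _, H⟩ := fe_ct_odd (hDD hD) R
    refine ⟨C, κ, hκ, fun B t X hX => ?_⟩
    have h1 := H 1 (Or.inl rfl) (fun y => 0 ≤ y ∧ y ≤ (R : ℤ)) (fun y hy => by rw [abs_of_nonneg hy.1]; exact hy.2) B t
    have h2 : CT (Ed m W t) (∏ i, (1 / (m i : ℝ))) C κ
        (ind (fun n => n % 2 = 1 ∧ ∃ k, Enters R k (c n) ∧ (k, ⌊f^[k] (c n)⌋) ∈ B)) := by
      refine h1.congr fun n => ?_
      apply ind_congr
      refine and_congr_right fun hn => exists_congr fun k => ?_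
      rw [one_mul, enters_fe (by omega) (hfol n hn), floor_iter (by omega) (hfol n hn)]
    rw [count_cl, count_ind]
    exact h2.tr X hX
  · exact hden hD t _ hI1 _ (hrel hKF)
  · obtain ⟨C, κ, hC, hκ, _, H⟩ := fe_ct_odd (hDD hD) 1
    obtain ⟨hρ0, hρ1⟩ := rho01 hD.pos
    have h4 := Real.log_pos (by norm_num : (1 : ℝ) < 4 / 3)
    have hAr : ∀ (k : ℕ) (x : ℝ), Pool.Agent.Results.MP_a247fa_nt.CriticalPointsInSemigroups.Arrives k x ↔ Enters 1 k x := by
      intro k x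
      show (f^[k] x < 2 ∧ ∀ i < k, 2 ≤ f^[i] x) ↔ (f^[k] x < ((1 : ℕ) : ℝ) + 1 ∧ ∀ i < k, ((1 : ℕ) : ℝ) + 1 ≤ f^[i] x)
      have e : ((1 : ℕ) : ℝ) + 1 = 2 := by norm_num
      rw [e]
    have h1 := cls_law' (C := C) (E := Ed m W t) (ρ := ∏ i, (1 / (m i : ℝ)))
      (L := fun (y : ℝ) (n : ℕ) => n % 2 = 1 ∧ ∃ k : ℕ, Enters 1 k (c n) ∧ (k : ℝ) ≤ y ∧ (k : ℤ) ≡ b [ZMOD r])
      (dd := fun x => β 1 / r * Pool.Agent.H499R2.ND.Phi x / 2) (A := 2 / Real.log (4 / 3)) (b := bH) hρ0.le hρ1 hκ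
      (fun y y' hy n => by
        rintro ⟨h0, k, h1, h2, h3⟩
        exact ⟨h0, k, h1, h2.trans hy, h3⟩)
      (fun y => by
        refine (H 1 (Or.inl rfl) (fun y => 0 ≤ y ∧ y ≤ ((1 : ℕ) : ℤ)) (fun y hy => by rw [abs_of_nonneg hy.1]; exact hy.2)
          {p | (p.1 : ℝ) ≤ y ∧ (p.1 : ℤ) ≡ b [ZMOD r]} t).congr fun n => ?_
        apply ind_congr
        refine and_congr_right fun hn => exists_congr fun k => ?_
        rw [one_mul, enters_fe (R := 1) (by omega) (hfol n hn)]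
        exact Iff.rfl)
      (by positivity) bH_pos
      ((Pool.Agent.H499R2.ND.Phi_continuous.const_mul _).div_const _)
      (fun y => by
        have h2 := hrel ((hlaw r b hr).2 y)
        have e1 : β 1 * Pool.Agent.Results.MP_a247fa_nt.CriticalPointsInSemigroups.Phi y / r / 2 =
            β 1 / r * Pool.Agent.H499R2.ND.Phi y / 2 := by
          have : Pool.Agent.Results.MP_a247fa_nt.CriticalPointsInSemigroups.Phi y = Pool.Agent.H499R2.ND.Phi y :=
            (Pool.Agent.H499R2.ND.phi_cdf y).symm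
          rw [this]; ring
        rw [e1] at h2
        have e2 : ind (fun n => n % 2 = 1 ∧ ∃ k : ℕ, Enters 1 k (c n) ∧ (k : ℝ) ≤ th (2 / Real.log (4 / 3)) bH y n ∧
            (k : ℤ) ≡ b [ZMOD r]) = ind (fun n => n % 2 = 1 ∧ ∃ k : ℕ,
            Pool.Agent.Results.MP_a247fa_nt.CriticalPointsInSemigroups.Arrives k (c n) ∧
            (k : ℝ) ≤ Pool.Agent.Results.MP_a247fa_nt.CriticalPointsInSemigroups.bound y n ∧ (k : ℤ) ≡ b [ZMOD r]) := by
          funext n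
          apply ind_congr
          refine and_congr_right fun _ => exists_congr fun k => ?_
          rw [hAr, bound_th]
          rfl
        rw [e2]
        exact h2) x
    apply dens_cl
    have e : (∏ i, 1 / (m i : ℝ)) * (β 1 / (r : ℝ) * Pool.Agent.H499R2.ND.Phi x / 2) =
        (∏ i, 1 / (m i : ℝ)) * (β 1 * Phi x / r) / 2 := by
      unfold Phi
      rw [← Pool.Agent.H499R2.ND.phi_cdf]
      ring
    rw [← e]
    simp only [bound_th] at h1
    exact h1
  · refine hden hD t (fun n => Merge (c n) (c j)) (fun i i' hi hi' h h' => ?_) _ (hrel (hmrg j hj).2)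
    rw [hmer i' j hi' hj]
    exact ((hmer i' i hi' hi).1 h').trans ((hmer i j hi hj).1 h)
  · exact hden hD t _ hI3 _ (hrel hw)
  · exact ⟨0, fun i => i.elim0, fun i => i.elim0, fun i => i.elim0, fun i => i.elim0,
      ⟨fun i => i.elim0, fun i => i.elim0, fun i => i.elim0, fun i => i.elim0, fun i => i.elim0⟩,
      dens_none fun n hn hn' => hn'.2 (h n hn)⟩
  · rintro ⟨l, q, m, W, t, hD, h⟩
    have h1 : Mn (ind (fun n => n % 2 = 1 ∧ KnownFate a (c n))) (β 1 / 2) := hrel hKF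
    have h2 : Mn (ind (fun n => n % 2 = 1 ∧ ¬ KnownFate a (c n))) ((1 - β 1) / 2) := by
      have h3 : Mn (ind (fun n => n % 2 = 1)) (1 / 2) := Pool.Agent.Y965.PL.Mn_odd
      have h4 := Filter.Tendsto.sub h3 h1
      have e : (1 - β 1) / 2 = 1 / 2 - β 1 / 2 := by ring
      rw [e]
      refine h4.congr fun X => ?_
      rw [← sub_div, ← Finset.sum_sub_distrib]
      congr 1
      apply Finset.sum_congr rfl
      intro n _
      by_cases hn : n % 2 = 1
      · by_cases hk : KnownFate a (c n)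
        · rw [ind_pos (P := fun n => n % 2 = 1) hn, ind_pos (P := fun n => n % 2 = 1 ∧ KnownFate a (c n)) ⟨hn, hk⟩,
            ind_neg (P := fun n => n % 2 = 1 ∧ ¬ KnownFate a (c n)) (fun h => h.2 hk)]
          norm_num
        · rw [ind_pos (P := fun n => n % 2 = 1) hn, ind_neg (P := fun n => n % 2 = 1 ∧ KnownFate a (c n)) (fun h => hk h.2),
            ind_pos (P := fun n => n % 2 = 1 ∧ ¬ KnownFate a (c n)) ⟨hn, hk⟩]
          norm_num
      · rw [ind_neg (P := fun n => n % 2 = 1) hn, ind_neg (P := fun n => n % 2 = 1 ∧ KnownFate a (c n)) (fun h => hn h.1),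
          ind_neg (P := fun n => n % 2 = 1 ∧ ¬ KnownFate a (c n)) (fun h => hn h.1)]
        norm_num
    have h5 := dens_unique (hden hD t _ hI2 _ h2) h
    obtain ⟨hρ0, _⟩ := rho01 hD.pos
    have h6 : β 1 = 1 := by
      rcases mul_eq_zero.1 h5 with h9 | h9
      · exact absurd h9 hρ0.ne'
      · linarith
    exact hK1.1 h6

end Pool.Agent.Results.MP_a247fa_nt.DigitClasses
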