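import Pool.Agent.Run7.h792.FL.Odd
import Pool.Agent.Run7.h439.DC.H3
import Pool.Agent.Y965.PL.Hei
import Pool.Agent.Results.MP_a247fa_nt.CriticalPointsInSemigroups

set_option autoImplicit false

/-!
# The critical points of Chamberland's map and functions modulo large odd numbers

We consider the odd integers `n` and the critical points of Chamberland's map above them. Fix `0 < ε < 1`. At the
scale `N`, the fates of these critical points are independent, with a power saving which is uniform, of every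
function of `n` modulo an odd `q` between `N ^ ε` and `N ^ (1 - ε)` whose Fourier coefficients at the nonzero
frequencies are at most `q ^ (1 / 2 + η)`. So the fates are distributed in every set of residues of this kind, for
example in the quadratic residues modulo a prime between `N ^ ε` and `N ^ (1 - ε)`, as among all odd integers, and
the assertion that all these critical points have the known fates is decided by such sets at infinitely many
scales.

Method: the dispersion argument of `Pool.Agent.Run7.h439.DC.Orth` at a level which is a small proportion of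
`log q`; the correlations of the function along the progressions modulo the powers of two are, up to `O(q)`,
autocorrelations over whole periods, and the sum of the squares of the latter is bounded by Parseval.
-/

namespace Pool.Agent.Results.MP_a247fa_nt.FlatResidues

open Filter Topology

/-- Chamberland's map. -/
noncomputable def f (x : ℝ) : ℝ := x + 1 / 4 - (2 * x + 1) / 4 * Real.cos (Real.pi * x)

/-- The `3x+1` map. -/
def T (n : ℕ) : ℕ := if n % 2 = 0 then n / 2 else (3 * n + 1) / 2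

/-- Points of attracting cycles contained in `(0,∞)`. -/
def AttractingPoint (y : ℝ) : Prop :=
  0 < y ∧ 0 < Function.minimalPeriod f y ∧ |deriv (f^[Function.minimalPeriod f y]) y| < 1

/-- The orbit of `x` converges to the cycle of `y`. -/
def Attracts (y x : ℝ) : Prop :=
  ∃ j : ℕ, Tendsto (fun k : ℕ => f^[k * Function.minimalPeriod f y + j] x) atTop (𝓝 y)

/-- `x` is attracted by the cycle `A₁ = {1, 2}` or by the cycle `A₂ = {a, f a}`, or its orbit ends in a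
point of `[1.02, 1.05]` of period two. -/
def KnownFate (a x : ℝ) : Prop :=
  Attracts 1 x ∨ Attracts a x ∨ ∃ K, f^[K] x ∈ Set.Icc (1.02 : ℝ) 1.05 ∧ f^[K + 2] x = f^[K] x

/-- The orbit of `x` is below `R + 1` for the first time at time `k`. -/
def Enters (R k : ℕ) (x : ℝ) : Prop := f^[k] x < R + 1 ∧ ∀ i < k, (R : ℝ) + 1 ≤ f^[i] x

/-- The orbits of `x` and `y` have, from some times on, the same integral parts. -/
def Merge (x y : ℝ) : Prop := ∃ i j : ℕ, ∀ k : ℕ, ⌊f^[k + i] x⌋ = ⌊f^[k + j] y⌋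

/-- `m` is the least element of a cycle of `T`. -/
def IsCycleRep (m : ℕ) : Prop := 1 ≤ m ∧ (∃ p : ℕ, 0 < p ∧ T^[p] m = m) ∧ ∀ j : ℕ, m ≤ T^[j] m

/-- `2 log n / log (4/3) + x * log 3 * √(2 log n / (log (4/3))^3)` -/
noncomputable def bound (x : ℝ) (n : ℕ) : ℝ :=
  2 / Real.log (4 / 3) * Real.log n +
    x * (Real.log 3 * Real.sqrt (2 * Real.log n / Real.log (4 / 3) ^ 3))

/-- The distribution function of the standard normal law. -/
noncomputable def Phi (x : ℝ) : ℝ :=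
  ProbabilityTheory.cdf (ProbabilityTheory.gaussianReal 0 1) x

/-- `f` has period `q`, values of modulus at most `1`, and its Fourier coefficients at the nonzero
frequencies have modulus at most `q ^ (1 / 2 + η)`. -/
structure Flat (q : ℕ) (η : ℝ) (f : ℕ → ℂ) : Prop where
  bounded : ∀ n, ‖f n‖ ≤ 1
  periodic : ∀ n, f (n + q) = f n
  fourier : ∀ h : ℕ, 0 < h → h < q →
    ‖∑ a ∈ Finset.range q, f a * Complex.exp (2 * Real.pi * Complex.I * (h * a) / q)‖ ≤ (q : ℝ) ^ (1 / 2 + η)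

/-- the mean value of a function with period `q` -/
noncomputable def mean (q : ℕ) (f : ℕ → ℂ) : ℂ := (∑ a ∈ Finset.range q, f a) / q

/-- `A` is a subset of `{0, ..., q - 1}`, and the indicator function of the integers which are congruent to
an element of `A` modulo `q` is `Flat`. -/
def FlatSet (q : ℕ) (η : ℝ) (A : Finset ℕ) : Prop :=
  A ⊆ Finset.range q ∧ Flat q η (fun n => if n % q ∈ A then 1 else 0)

/-- `q` is odd and `N ^ ε ≤ q ≤ N ^ (1 - ε)`. -/
def InRange (ε : ℝ) (N q : ℕ) : Prop := Odd q ∧ (N : ℝ) ^ ε ≤ q ∧ (q : ℝ) ≤ (N : ℝ) ^ (1 - ε)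

/-- the number of the odd positive `n ≤ X` with the property `P` -/
noncomputable def count (P : ℕ → Prop) (X : ℕ) : ℝ := (Set.ncard {n : ℕ | n ≤ X ∧ n % 2 = 1 ∧ P n} : ℝ)

/-- Among the odd positive integers those with the property `P` have natural density `d`. -/
def HasDensity (P : ℕ → Prop) (d : ℝ) : Prop := Tendsto (fun X : ℕ => 2 / (X : ℝ) * count P X) atTop (𝓝 d)

open Pool.Agent.Run7.h792.FL
open Pool.Agent.Run7.h439.DC
open Pool.Agent.H319R3.GC (Tm Adm)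
open Pool.Agent.Y965.PL (Mn MnS th ind ind_pos ind_neg ind_congr ind_nonneg)
open Pool.Agent.Y965.PS (Tz ac)
open Pool.Agent.H723R2.LSW (Mer Wild)
open Pool.Agent.Results.MP_a247fa_nt.CriticalPointsInSemigroups (Fol)

theorem count_ind (P : ℕ → Prop) (X : ℕ) : count P X = ∑ n ∈ Finset.Icc 1 X, ind (fun n => n % 2 = 1 ∧ P n) n := by
  classical
  have key : ∀ Q : ℕ → Prop, ∑ n ∈ Finset.Icc 1 X, ind Q n = (((Finset.Icc 1 X).filter Q).card : ℝ) := by
    intro Q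
    unfold ind
    rw [Finset.sum_boole]
  rw [key]
  unfold count
  have e : {n : ℕ | n ≤ X ∧ n % 2 = 1 ∧ P n} = ((Finset.Icc 1 X).filter fun n => n % 2 = 1 ∧ P n : Finset ℕ) := by
    ext n
    simp only [Set.mem_ofPred_eq, Finset.coe_filter, Finset.mem_Icc]
    constructor
    · rintro ⟨h1, h2, h3⟩
      exact ⟨⟨by omega, h1⟩, h2, h3⟩
    · rintro ⟨h1, h2, h3⟩
      exact ⟨h1.2, h2, h3⟩
  rw [e, Set.ncard_coe_finset]
  congr

theorem count_cl (E P : ℕ → Prop) (X : ℕ) :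
    count (fun n => E n ∧ P n) X = ∑ n ∈ Finset.Icc 1 X, ind E n * ind (fun n : ℕ => n % 2 = 1 ∧ P n) n := by
  rw [count_ind]
  apply Finset.sum_congr rfl
  intro n _
  rw [← Pool.Agent.Run7.h439.DC.ind_and]
  apply ind_congr
  tauto

theorem dens_of {P : ℕ → Prop} {δ : ℝ} (h : Mn (ind (fun n : ℕ => n % 2 = 1 ∧ P n)) (δ / 2)) : HasDensity P δ := by
  unfold HasDensity
  have h1 := Filter.Tendsto.const_mul 2 h
  rw [mul_div_cancel₀ δ (by norm_num : (2 : ℝ) ≠ 0)] at h1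
  refine h1.congr fun X => ?_
  rw [count_ind]
  ring

theorem bound_th (x : ℝ) (n : ℕ) : th (2 / Real.log (4 / 3)) bH x n = bound x n := by
  unfold th bH bound
  have e : Real.sqrt (2 * Real.log n / Real.log (4 / 3) ^ 3) = Real.sqrt (2 / Real.log (4 / 3) ^ 3) * Real.sqrt (Real.log n) := by
    have h4 := Real.log_pos (by norm_num : (1 : ℝ) < 4 / 3)
    rw [← Real.sqrt_mul (by positivity)]
    congr 1
    ring
  rw [e]
  ring

/-- densities among the odd integers from relative frequencies -/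
theorem mn_of_rel {P : ℕ → Prop} {d : ℝ}
    (h : Tendsto (fun X : ℕ => ({n : ℕ | n ≤ X ∧ n ∈ {n : ℕ | n % 2 = 1} ∧ P n}.ncard : ℝ) /
      {n : ℕ | n ≤ X ∧ n ∈ {n : ℕ | n % 2 = 1}}.ncard) atTop (𝓝 d)) :
    Mn (ind (fun n => n % 2 = 1 ∧ P n)) (d / 2) := by
  classical
  have h0 : Tendsto (fun X : ℕ => (∑ n ∈ Finset.Icc 1 X, ind (fun n => n % 2 = 1) n) / (X : ℝ)) atTop (𝓝 (1 / 2)) :=
    Pool.Agent.Y965.PL.Mn_odd
  have h1 := h.mul h0
  have e : d * (1 / 2) = d / 2 := by ring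
  rw [e] at h1
  refine Tendsto.congr' ?_ h1
  filter_upwards [eventually_ge_atTop 1] with X hX
  have hc1 : ({n : ℕ | n ≤ X ∧ n % 2 = 1 ∧ P n}.ncard : ℝ) =
      ∑ n ∈ Finset.Icc 1 X, ind (fun n => n % 2 = 1 ∧ P n) n := count_ind P X
  have hc2 : ({n : ℕ | n ≤ X ∧ n % 2 = 1}.ncard : ℝ) = ∑ n ∈ Finset.Icc 1 X, ind (fun n => n % 2 = 1) n := by
    have h2 := count_ind (fun _ => True) X
    have e1 : {n : ℕ | n ≤ X ∧ n % 2 = 1 ∧ True} = {n : ℕ | n ≤ X ∧ n % 2 = 1} := by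
      ext n; simp
    unfold count at h2
    rw [e1] at h2
    rw [h2]
    apply Finset.sum_congr rfl
    intro n _
    exact ind_congr (by simp)
  have hpos : (0 : ℝ) < ∑ n ∈ Finset.Icc 1 X, ind (fun n => n % 2 = 1) n := by
    have h3 : ind (fun n : ℕ => n % 2 = 1) 1 ≤ ∑ n ∈ Finset.Icc 1 X, ind (fun n => n % 2 = 1) n :=
      Finset.single_le_sum (f := ind (fun n : ℕ => n % 2 = 1)) (fun n _ => ind_nonneg _ n) (Finset.mem_Icc.2 ⟨le_rfl, hX⟩)
    rw [ind_pos (P := fun n : ℕ => n % 2 = 1) (by norm_num : 1 % 2 = 1)] at h3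
    linarith
  show ({n : ℕ | n ≤ X ∧ n % 2 = 1 ∧ P n}.ncard : ℝ) / ({n : ℕ | n ≤ X ∧ n % 2 = 1}.ncard : ℝ) *
      ((∑ n ∈ Finset.Icc 1 X, ind (fun n => n % 2 = 1) n) / (X : ℝ)) = _
  rw [hc1, hc2, div_mul_div_comm, mul_comm (∑ n ∈ Finset.Icc 1 X, ind (fun n => n % 2 = 1) n) (X : ℝ),
    mul_div_mul_right _ _ hpos.ne']

theorem zT (k n : ℕ) : (Tz 1)^[k] (n : ℤ) = ((T^[k] n : ℕ) : ℤ) :=
  Pool.Agent.Results.MP_a247fa_nt.CriticalPointsInSemigroups.zT k n

theorem floor_iter {n : ℕ} (hn : 1 ≤ n) {x : ℝ} (h : Fol n x) (k : ℕ) : ⌊f^[k] x⌋ = (Tz 1)^[k] (n : ℤ) := by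
  rw [zT]
  exact Pool.Agent.Results.MP_a247fa_nt.CriticalPointsInSemigroups.fol_floor hn h k

theorem enters_fe {R k : ℕ} {n : ℕ} (hn : 1 ≤ n) {x : ℝ} (h : Fol n x) :
    FE (Tz 1) (fun y => 0 ≤ y ∧ y ≤ (R : ℤ)) k (n : ℤ) ↔ Enters R k x := by
  have h1 : ∀ i : ℕ, (0 ≤ (Tz 1)^[i] (n : ℤ) ∧ (Tz 1)^[i] (n : ℤ) ≤ (R : ℤ)) ↔ f^[i] x < R + 1 := by
    intro i
    rw [← floor_iter hn h i]
    have h0 : 0 ≤ ⌊f^[i] x⌋ := by
      rw [floor_iter hn h i, zT]
      positivity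
    constructor
    · rintro ⟨_, h2⟩
      have h3 := Int.lt_floor_add_one (f^[i] x)
      have h4 : ((⌊f^[i] x⌋ : ℤ) : ℝ) ≤ R := by exact_mod_cast h2
      linarith
    · intro h2
      refine ⟨h0, ?_⟩
      have h3 : ⌊f^[i] x⌋ < (R : ℤ) + 1 := Int.floor_lt.2 (by push_cast; exact h2)
      omega
  unfold FE Enters
  dsimp only
  rw [h1]
  refine and_congr_right fun _ => forall₂_congr fun i _ => ?_
  rw [h1, not_lt]

/-- THE CRITICAL POINTS OF CHAMBERLAND'S MAP AND FUNCTIONS MODULO LARGE ODD NUMBERS. For odd `n` let `c n` be the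
critical point of `f` in `(n, n + 1/2)`. Densities are taken among the odd positive integers. There are numbers
`β j > 0` (`j` odd) and `w`, such that the `β j` of the least elements `j` of the cycles of the `3x+1` map and `w`
add up to `1`: the `c n` of known fate have density `β 1`, those whose orbits merge with the orbit of `c j` have
density `β j`, and those whose orbits tend to infinity have density `w`, which is `0` only if there are none.

Let `0 < ε < 1`; `N ≥ 1`, and `q` is odd with `N ^ ε ≤ q ≤ N ^ (1 - ε)`.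

(I) There are `η`, `κ`, `K > 0` with the following properties.

(1) (Uniform transfer.) For every `g` with period `q` and modulus at most `1` whose Fourier coefficients at
the nonzero frequencies are at most `q ^ (1 / 2 + η)`, every set `S` of odd integers which contains with `i` all odd
`j` such that the orbits of `c i` and `c j` merge, and all `X ≤ N` the sum of `g(n)` minus the mean value of `g` over
the odd `n ≤ X` in `S` has modulus at most `K N ^ (1 - κ)`.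

(2) Let `0 ≤ v < κ` and `τ > 0`. For all large `N`, all `q` and all flat sets `A` of residues modulo `q` with
`|A| ≥ q N ^ (-v)`, up to `τ |A| / q * N`, among the odd `n ≤ N` in the classes of `A`

* `β 1 / 2 * |A| / q * N` are such that `c n` is of known fate,
* `β 1 * Phi x / r / 2 * |A| / q * N` are such that the orbit of `c n` is below `2` for the first time at a time
  `k ≤ bound x n`, `k ≡ b` modulo `r`,
* `β j / 2 * |A| / q * N` are such that the orbit of `c n` merges with the orbit of `c j`,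
* `w / 2 * |A| / q * N` are such that the orbit of `c n` tends to infinity.

(3) Let `0 ≤ v < κ`. If there are for infinitely many `N` a number `q` and a flat `A` with `|A| ≥ q N ^ (-v)` such
that `c n` is of known fate for all but `o(|A| / q * N)` of the odd `n ≤ N` in the classes of `A`, then all `c n`,
`n` odd, are of known fate.

(4) (Examples.) The hypothesis on `g` holds for the primitive Dirichlet characters modulo `q`, for
`exp (2 π i (a n ^ 2 + b n) / q)` with `a` coprime to `q`, and the hypothesis on `A` holds if `q = p` is prime and `A`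
is invariant under multiplication by the `k`-th powers coprime to `p`, where `k + 1 ≤ p ^ (2 η)`.

(II) For every `R` there are `η`, `κ`, `K > 0` such that for all sets `B` of pairs of a time and an integer, all `N`,
all `q`, all flat sets `A` of residues modulo `q` and all `X ≤ N` the number of the odd `n ≤ X` in the classes of `A`
for which the orbit of `c n` is below `R + 1` for the first time at a time `k` such that the pair of `k` and the
integral part of `f ^ k (c n)` is in `B`, is `|A| / q` times the number of all such odd `n ≤ X`, up to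
`K N ^ (1 - κ)`. -/
theorem result : ∃ (a : ℝ) (c : ℕ → ℝ) (w : ℝ) (β : ℕ → ℝ),
    (a ∈ Set.Icc (1.19 : ℝ) 1.196 ∧ f (f a) = a ∧
      ∀ y, y = 1 ∨ y = 2 ∨ y = a ∨ y = f a → AttractingPoint y) ∧
    (∀ n : ℕ, n % 2 = 1 → (n : ℝ) < c n ∧ c n < n + 1 / 2 ∧ deriv f (c n) = 0 ∧
      ∀ x : ℝ, (n : ℝ) < x → x < n + 1 / 2 → deriv f x = 0 → x = c n) ∧
    ((∀ j : ℕ, j % 2 = 1 → 0 < β j) ∧ HasSum (fun j : {j : ℕ // IsCycleRep j} => β j) (1 - w) ∧
      (w = 0 ↔ ∀ n : ℕ, n % 2 = 1 → ¬ Tendsto (fun k : ℕ => f^[k] (c n)) atTop atTop) ∧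
      HasDensity (fun n => KnownFate a (c n)) (β 1) ∧
      (∀ j : ℕ, j % 2 = 1 → HasDensity (fun n => Merge (c n) (c j)) (β j)) ∧
      HasDensity (fun n => Tendsto (fun k : ℕ => f^[k] (c n)) atTop atTop) w) ∧
    ∀ ε : ℝ, 0 < ε → ε < 1 →
    (∃ η κ K : ℝ, 0 < η ∧ 0 < κ ∧ κ < 1 ∧ 0 < K ∧
    (∀ N q : ℕ, 1 ≤ N → InRange ε N q → ∀ g : ℕ → ℂ, Flat q η g →
      ∀ S : Set ℕ, (∀ i j : ℕ, i % 2 = 1 → j % 2 = 1 → i ∈ S → Merge (c j) (c i) → j ∈ S) → ∀ X : ℕ, X ≤ N →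
      ‖∑ᶠ n ∈ {n : ℕ | n ≤ X ∧ n % 2 = 1 ∧ n ∈ S}, (g n - mean q g)‖ ≤ K * (N : ℝ) ^ (1 - κ)) ∧
    (∀ v : ℝ, 0 ≤ v → v < κ → ∀ τ : ℝ, 0 < τ →
      (∃ N₀ : ℕ, ∀ N : ℕ, N₀ ≤ N → ∀ q : ℕ, InRange ε N q → ∀ A : Finset ℕ, FlatSet q η A →
        (q : ℝ) * (N : ℝ) ^ (-v) ≤ A.card →
        |count (fun n => n % q ∈ A ∧ KnownFate a (c n)) N - β 1 / 2 * (A.card / q * N)| ≤ τ * (A.card / q * N)) ∧
      (∀ (r : ℕ) (b : ℤ) (x : ℝ), 1 ≤ r → ∃ N₀ : ℕ, ∀ N : ℕ, N₀ ≤ N → ∀ q : ℕ, InRange ε N q →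
        ∀ A : Finset ℕ, FlatSet q η A → (q : ℝ) * (N : ℝ) ^ (-v) ≤ A.card →
        |count (fun n => n % q ∈ A ∧ ∃ k : ℕ, (k : ℝ) ≤ bound x n ∧ Enters 1 k (c n) ∧ (k : ℤ) ≡ b [ZMOD r]) N -
          β 1 * Phi x / r / 2 * (A.card / q * N)| ≤ τ * (A.card / q * N)) ∧
      (∀ j : ℕ, j % 2 = 1 → ∃ N₀ : ℕ, ∀ N : ℕ, N₀ ≤ N → ∀ q : ℕ, InRange ε N q → ∀ A : Finset ℕ, FlatSet q η A →
        (q : ℝ) * (N : ℝ) ^ (-v) ≤ A.card →
        |count (fun n => n % q ∈ A ∧ Merge (c n) (c j)) N - β j / 2 * (A.card / q * N)| ≤ τ * (A.card / q * N)) ∧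
      ∃ N₀ : ℕ, ∀ N : ℕ, N₀ ≤ N → ∀ q : ℕ, InRange ε N q → ∀ A : Finset ℕ, FlatSet q η A →
        (q : ℝ) * (N : ℝ) ^ (-v) ≤ A.card →
        |count (fun n => n % q ∈ A ∧ Tendsto (fun k : ℕ => f^[k] (c n)) atTop atTop) N - w / 2 * (A.card / q * N)| ≤
          τ * (A.card / q * N)) ∧
    (∀ v : ℝ, 0 ≤ v → v < κ → ∀ ψ : ℕ → ℝ, Tendsto ψ atTop (𝓝 0) →
      (∃ᶠ N : ℕ in atTop, ∃ q : ℕ, InRange ε N q ∧ ∃ A : Finset ℕ, FlatSet q η A ∧ (q : ℝ) * (N : ℝ) ^ (-v) ≤ A.card ∧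
        count (fun n => n % q ∈ A ∧ ¬ KnownFate a (c n)) N ≤ ψ N * (A.card / q * N)) →
      ∀ n : ℕ, n % 2 = 1 → KnownFate a (c n)) ∧
    (∀ (q : ℕ) (χ : DirichletCharacter ℂ q), 1 ≤ q → χ.IsPrimitive → Flat q η (fun n => χ n)) ∧
    (∀ (q : ℕ) (a b : ℤ), Odd q → IsCoprime a q →
      Flat q η (fun n => Complex.exp (2 * Real.pi * Complex.I * (a * n ^ 2 + b * n) / q))) ∧
    (∀ p k : ℕ, p.Prime → 1 ≤ k → (k : ℝ) + 1 ≤ (p : ℝ) ^ (2 * η) → ∀ A : Finset ℕ, A ⊆ Finset.range p →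
      (∀ b : ℕ, Nat.Coprime b p → ∀ a ∈ A, b ^ k * a % p ∈ A) → FlatSet p η A)) ∧
    ∀ R : ℕ, ∃ η κ K : ℝ, 0 < η ∧ 0 < κ ∧ κ < 1 ∧ 0 < K ∧
      ∀ B : Set (ℕ × ℤ), ∀ N q : ℕ, 1 ≤ N → InRange ε N q → ∀ A : Finset ℕ, FlatSet q η A → ∀ X : ℕ, X ≤ N →
      |count (fun n => n % q ∈ A ∧ ∃ k, Enters R k (c n) ∧ (k, ⌊f^[k] (c n)⌋) ∈ B) X -
        (A.card / q : ℝ) * count (fun n => ∃ k, Enters R k (c n) ∧ (k, ⌊f^[k] (c n)⌋) ∈ B) X| ≤
        K * (N : ℝ) ^ (1 - κ) := by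
  classical
  obtain ⟨a, c, w, β, ⟨ha, hfa, hattr⟩, hc, ⟨hKF, hK1, _⟩, hlaw, _, hmrg, ⟨hw, hw0⟩, hsum, hE, _, hpr⟩ :=
    Pool.Agent.Results.MP_a247fa_nt.CriticalPointsInSemigroups.result
  -- the orbits of the critical points follow the trajectories
  obtain ⟨a', _, _, huniq, _, _, _, hodd⟩ := Pool.Agent.Results.MP_a247fa_nt.OddCriticalPoints.result
  have hfol : ∀ n : ℕ, n % 2 = 1 → Fol n (c n) := by
    intro n hn
    obtain ⟨c', h1, h2, h3, h4, h5, _, _⟩ := hodd n hn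
    have e : c n = c' := h4 (c n) (hc n hn).1 (hc n hn).2.1 (hc n hn).2.2.1
    rw [e]
    exact fun k => h5 k
  -- the odd integers
  obtain ⟨hms, c₀, hc₀, x₀, hmp⟩ := hpr 1 0 {0} le_rfl (Set.mem_singleton 0) (by norm_num)
  have hEe : Pool.Agent.Results.MP_a247fa_nt.CriticalPointsInSemigroups.OddPrimesIn 1 {0} = {n : ℕ | n % 2 = 1} := by
    ext n
    show (Odd n ∧ ∀ p : ℕ, p.Prime → p ∣ n → ∃ a ∈ ({0} : Set ℕ), p % 1 = a % 1) ↔ n % 2 = 1
    rw [Nat.odd_iff]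
    refine and_iff_left_of_imp fun _ p _ _ => ⟨0, rfl, ?_⟩
    rw [Nat.mod_one, Nat.mod_one]
  rw [hEe] at hms hmp
  have hrel : ∀ {P : ℕ → Prop} {d : ℝ}, Pool.Agent.Results.MP_a247fa_nt.CriticalPointsInSemigroups.Relative P d →
      Mn (ind (fun n => n % 2 = 1 ∧ P n)) (d / 2) := by
    intro P d h
    exact mn_of_rel ((hE P d h).2 c₀ x₀ {n : ℕ | n % 2 = 1} hc₀ hms hmp)
  -- merging
  have hmer : ∀ i j : ℕ, i % 2 = 1 → j % 2 = 1 → (Merge (c i) (c j) ↔ Mer (i : ℤ) (j : ℤ)) := fun i j hi hj =>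
    Pool.Agent.Results.MP_a247fa_nt.CriticalPointsInSemigroups.merge_iff (by omega) (by omega) (hfol i hi) (hfol j hj)
  -- saturated sets
  have hsat : ∀ S : Set ℕ, (∀ i j : ℕ, i % 2 = 1 → j % 2 = 1 → i ∈ S → Merge (c j) (c i) → j ∈ S) →
      ∃ S' : Set ℤ, (∀ x, x ∈ S' ↔ Tz 1 x ∈ S') ∧ ∀ n : ℕ, n % 2 = 1 → (1 * (n : ℤ) ∈ S' ↔ n ∈ S) := by
    intro S hS
    refine ⟨{x | ∃ i : ℕ, i % 2 = 1 ∧ i ∈ S ∧ Mer x i}, fun x => ?_, fun n hn => ?_⟩
    · constructor
      · rintro ⟨i, h1, h2, h3⟩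
        exact ⟨i, h1, h2, (Pool.Agent.Results.MP_a247fa_nt.CriticalPointsInSemigroups.mer_T i x).1 h3⟩
      · rintro ⟨i, h1, h2, h3⟩
        exact ⟨i, h1, h2, (Pool.Agent.Results.MP_a247fa_nt.CriticalPointsInSemigroups.mer_T i x).2 h3⟩
    · rw [one_mul]
      constructor
      · rintro ⟨i, h1, h2, h3⟩
        exact hS i n h1 hn h2 ((hmer n i hn h1).2 h3)
      · intro h
        exact ⟨n, hn, h, ⟨0, 0, rfl⟩⟩
  -- invariance under merging
  have hTn : ∀ n : ℕ, n % 2 = 1 → (Tendsto (fun k : ℕ => f^[k] (c n)) atTop atTop ↔ Wild (n : ℤ)) := fun n hn =>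
    Pool.Agent.Results.MP_a247fa_nt.CriticalPointsInSemigroups.fol_tendsto (by omega) (hfol n hn)
  have hEnt : ∀ n : ℕ, n % 2 = 1 → (KnownFate a (c n) ↔ Mer (n : ℤ) (1 : ℤ)) := by
    intro n hn
    obtain ⟨c', h1, h2, h3, h4, h5, h6, _⟩ := hodd n hn
    have e : c n = c' := h4 (c n) (hc n hn).1 (hc n hn).2.1 (hc n hn).2.2.1
    have hau : a' = a := (huniq a ⟨ha.1, by linarith [ha.2]⟩ hfa).symm
    have h7 : (∃ k, T^[k] n = 1) ↔ KnownFate a (c n) := by
      rw [e, ← hau]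
      exact h6
    have h8 : Mer (n : ℤ) ((1 : ℕ) : ℤ) ↔ ∃ k, T^[k] n = 1 :=
      Pool.Agent.Results.MP_a247fa_nt.CriticalPointsInSemigroups.reach_mer (m := 1) (p := 2) (by norm_num) rfl
    rw [← h7, ← h8]
    exact Iff.rfl
  have hI1 : ∀ i j : ℕ, i % 2 = 1 → j % 2 = 1 → KnownFate a (c i) → Merge (c j) (c i) → KnownFate a (c j) := by
    intro i j hi hj h h'
    rw [hEnt j hj]
    exact ((hmer j i hj hi).1 h').trans ((hEnt i hi).1 h)
  have hI2 : ∀ i j : ℕ, i % 2 = 1 → j % 2 = 1 → ¬ KnownFate a (c i) → Merge (c j) (c i) → ¬ KnownFate a (c j) := by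
    intro i j hi hj h h' h2
    apply h
    rw [hEnt i hi]
    exact ((hmer j i hj hi).1 h').symm.trans ((hEnt j hj).1 h2)
  have hI3 : ∀ i j : ℕ, i % 2 = 1 → j % 2 = 1 → Tendsto (fun k : ℕ => f^[k] (c i)) atTop atTop → Merge (c j) (c i) →
      Tendsto (fun k : ℕ => f^[k] (c j)) atTop atTop := by
    intro i j hi hj h h'
    rw [hTn j hj]
    exact Pool.Agent.H723R2.LSW.wild_mer ((hmer j i hj hi).1 h').symm ((hTn i hi).1 h)
  have hMfate : Mn (ind (fun n => n % 2 = 1 ∧ KnownFate a (c n))) (β 1 / 2) := hrel hKF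
  have hMnot : Mn (ind (fun n => n % 2 = 1 ∧ ¬ KnownFate a (c n))) ((1 - β 1) / 2) := by
    have h3 : Mn (ind (fun n => n % 2 = 1)) (1 / 2) := Pool.Agent.Y965.PL.Mn_odd
    have h4 := Filter.Tendsto.sub h3 hMfate
    have e : (1 - β 1) / 2 = 1 / 2 - β 1 / 2 := by ring
    rw [e]
    refine h4.congr fun X => ?_
    rw [← sub_div, ← Finset.sum_sub_distrib]
    congr 1
    apply Finset.sum_congr rfl
    intro n _
    by_cases hn : n % 2 = 1
    · by_cases hk : KnownFate a (c n)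
      · rw [ind_pos (P := fun n => n % 2 = 1) hn, ind_pos (P := fun n => n % 2 = 1 ∧ KnownFate a (c n)) ⟨hn, hk⟩,
          ind_neg (P := fun n => n % 2 = 1 ∧ ¬ KnownFate a (c n)) (fun h => h.2 hk)]
        norm_num
      · rw [ind_pos (P := fun n => n % 2 = 1) hn, ind_neg (P := fun n => n % 2 = 1 ∧ KnownFate a (c n)) (fun h => hk h.2),
          ind_pos (P := fun n => n % 2 = 1 ∧ ¬ KnownFate a (c n)) ⟨hn, hk⟩]
        norm_num
    · rw [ind_neg (P := fun n => n % 2 = 1) hn, ind_neg (P := fun n => n % 2 = 1 ∧ KnownFate a (c n)) (fun h => hn h.1),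
        ind_neg (P := fun n => n % 2 = 1 ∧ ¬ KnownFate a (c n)) (fun h => hn h.1)]
      norm_num
  have hβ1 : β 1 ≤ 1 := by
    have h1 : 0 ≤ (1 - β 1) / 2 := by
      refine ge_of_tendsto' hMnot fun N => ?_
      exact div_nonneg (Finset.sum_nonneg fun n _ => ind_nonneg _ n) (Nat.cast_nonneg _)
    linarith
  -- the conditions as functions of the first entrance
  have hQ : ∀ (R : ℕ) (B : Set (ℕ × ℤ)) (n : ℕ), n % 2 = 1 →
      ((∃ k, FE (Tz 1) (fun y => 0 ≤ y ∧ y ≤ (R : ℤ)) k (1 * (n : ℤ)) ∧ (k, (Tz 1)^[k] (1 * (n : ℤ))) ∈ B) ↔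
        ∃ k, Enters R k (c n) ∧ (k, ⌊f^[k] (c n)⌋) ∈ B) := by
    intro R B n hn
    refine exists_congr fun k => ?_
    rw [one_mul, enters_fe (by omega) (hfol n hn), floor_iter (by omega) (hfol n hn)]
  have hcard1 : ∀ (R : ℕ) (y : ℤ), (0 ≤ y ∧ y ≤ (R : ℤ)) → |y| ≤ (R : ℤ) := fun R y hy => by rw [abs_of_nonneg hy.1]; exact hy.2
  refine ⟨a, c, w, β, ⟨ha, hfa, hattr⟩, hc, ⟨fun j hj => (hmrg j hj).1, hsum, hw0, dens_of hMfate,
    fun j hj => dens_of (hrel (hmrg j hj).2), dens_of (hrel hw)⟩, fun ε hε hε1 => ⟨?_, fun R => ?_⟩⟩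
  · obtain ⟨k0, hk0⟩ := ksync_fb 1
    obtain ⟨η, κ, K, hη, hκ0, hκ1, hK, S₀⟩ := scaleF (adm3 (k := 1) odd_one) 2 k0 1 hε hε1
    have hFl : ∀ {q : ℕ} {f : ℕ → ℂ}, Flat q η f → FlatP q η f := fun h => ⟨h.1, h.2, h.3⟩
    have hlF : ∀ {q : ℕ} {f : ℕ → ℂ}, FlatP q η f → Flat q η f := fun h => ⟨h.1, h.2, h.3⟩
    have hFs : ∀ {q : ℕ} {A : Finset ℕ}, FlatSet q η A → FlatI q η A := fun h => ⟨h.1, hFl h.2⟩
    have hrho : ∀ {N q : ℕ} {A : Finset ℕ} {v : ℝ}, Odd q → (q : ℝ) * (N : ℝ) ^ (-v) ≤ A.card → (N : ℝ) ^ (-v) ≤ (A.card / q : ℝ) := by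
      intro N q A v hq h
      have hq0 : 0 < q := hq.pos
      have hqr : (0 : ℝ) < q := by exact_mod_cast hq0
      rw [le_div_iff₀ hqr]
      linarith
    have hrho1 : ∀ {q : ℕ} {A : Finset ℕ}, Odd q → A ⊆ Finset.range q → (A.card / q : ℝ) ≤ 1 := by
      intro q A hq hA
      have hq0 : 0 < q := hq.pos
      have hqr : (0 : ℝ) < q := by exact_mod_cast hq0
      rw [div_le_one hqr]
      have := Finset.card_le_card hA
      rw [Finset.card_range] at this
      exact_mod_cast this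
    -- saturated sets
    have hks : ∀ S : Set ℕ, (∀ i j : ℕ, i % 2 = 1 → j % 2 = 1 → i ∈ S → Merge (c j) (c i) → j ∈ S) →
        ∃ Q : ℕ → Prop, KSync 2 m3 (r3 1) 1 2 k0 (ind Q) ∧ ∀ n : ℕ, n % 2 = 1 → (Q n ↔ n ∈ S) := by
      intro S hS
      obtain ⟨S', h1, h2⟩ := hsat S hS
      refine ⟨fun n : ℕ => 1 * (n : ℤ) ∈ S', ?_, h2⟩
      exact ksync_mono (by norm_num) (by norm_num) (Nat.zero_le _)
        (ksync_set (s := 1) (S := S') (fun x => by rw [Tm3]; exact h1 x))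
    have hmain : ∀ P : ℕ → Prop, (∀ i j : ℕ, i % 2 = 1 → j % 2 = 1 → P i → Merge (c j) (c i) → P j) → ∀ d : ℝ,
        Mn (ind (fun n => n % 2 = 1 ∧ P n)) (d / 2) → ∀ v : ℝ, 0 ≤ v → v < κ → ∀ τ : ℝ, 0 < τ →
        ∃ N₀ : ℕ, 1 ≤ N₀ ∧ ∀ N : ℕ, N₀ ≤ N → ∀ q : ℕ, InRange ε N q → ∀ A : Finset ℕ, FlatSet q η A →
        (q : ℝ) * (N : ℝ) ^ (-v) ≤ A.card →
        |count (fun n => n % q ∈ A ∧ P n) N - d / 2 * (A.card / q * N)| ≤ τ * (A.card / q * N) := by
      intro P hP d hM v hv0 hv τ hτ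
      obtain ⟨Q, hQ1, hQ2⟩ := hks {n | P n} (fun i j hi hj h h' => hP i j hi hj h h')
      obtain ⟨N₀, hN₀⟩ := (dens hM (C := K) hv hτ).exists_forall_of_atTop
      refine ⟨max N₀ 1, le_max_right _ _, fun N hN q hq A hA' hcard => ?_⟩
      have hN1 : 1 ≤ N := (le_max_right _ _).trans hN
      rw [count_cl]
      exact hN₀ N ((le_max_left _ _).trans hN) (fun n => n % q ∈ A) (A.card / q) (hrho hq.1 hcard)
        (S₀.oddset (Or.inl rfl) hN1 hq.1 hq.2.1 hq.2.2 (hFs hA') hQ1 hQ2)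
    refine ⟨η, κ, K + 1, hη, hκ0, hκ1, by linarith, ?_, ?_, ?_, ?_, ?_, ?_⟩
    · intro N q hN hq g hg S hS X hX
      obtain ⟨Q, hQ1, hQ2⟩ := hks S hS
      have h4 := S₀.odd (Or.inl rfl) hN hq.1 hq.2.1 hq.2.2 (hFl hg) hQ1 hQ2 hX
      refine le_trans h4 ?_
      have : 0 ≤ (N : ℝ) ^ (1 - κ) := by positivity
      nlinarith
    · intro v hv0 hv τ hτ
      refine ⟨?_, fun r b x hr => ?_, fun j hj => ?_, ?_⟩
      · obtain ⟨N₀, _, h6⟩ := hmain _ hI1 _ hMfate v hv0 hv τ hτ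
        exact ⟨N₀, h6⟩
      · have h4 := Real.log_pos (by norm_num : (1 : ℝ) < 4 / 3)
        have hAr : ∀ (k : ℕ) (x : ℝ), Pool.Agent.Results.MP_a247fa_nt.CriticalPointsInSemigroups.Arrives k x ↔ Enters 1 k x := by
          intro k x
          show (f^[k] x < 2 ∧ ∀ i < k, 2 ≤ f^[i] x) ↔ (f^[k] x < ((1 : ℕ) : ℝ) + 1 ∧ ∀ i < k, ((1 : ℕ) : ℝ) + 1 ≤ f^[i] x)
          have e : ((1 : ℕ) : ℝ) + 1 = 2 := by norm_num
          rw [e]
        set Lev : ℕ → ℕ → Prop := fun k n => n % 2 = 1 ∧ (Enters 1 k (c n) ∧ (k : ℤ) ≡ b [ZMOD r]) with hLev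
        have huniq : ∀ i j n, Lev i n → Lev j n → i = j := by
          rintro i j n ⟨hn, h1, _⟩ ⟨_, h2, _⟩
          exact FE_unique ((enters_fe (by omega) (hfol n hn)).2 h1) ((enters_fe (by omega) (hfol n hn)).2 h2)
        have hL : Mn (ind (fun n => ∃ j : ℕ, (j : ℝ) ≤ th (2 / Real.log (4 / 3)) bH x n ∧ Lev j n)) (β 1 * Phi x / r / 2) := by
          have h2 := hrel ((hlaw r b hr).2 x)
          have e2 : ind (fun n => ∃ j : ℕ, (j : ℝ) ≤ th (2 / Real.log (4 / 3)) bH x n ∧ Lev j n) =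
              ind (fun n => n % 2 = 1 ∧ ∃ k : ℕ,
              Pool.Agent.Results.MP_a247fa_nt.CriticalPointsInSemigroups.Arrives k (c n) ∧
              (k : ℝ) ≤ Pool.Agent.Results.MP_a247fa_nt.CriticalPointsInSemigroups.bound x n ∧ (k : ℤ) ≡ b [ZMOD r]) := by
            funext n
            apply ind_congr
            constructor
            · rintro ⟨j, g1, g2, g3, g4⟩
              refine ⟨g2, j, (hAr j _).2 g3, ?_, g4⟩
              rw [bound_th] at g1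
              exact g1
            · rintro ⟨g2, j, g3, g1, g4⟩
              refine ⟨j, ?_, g2, (hAr j _).1 g3, g4⟩
              rw [bound_th]
              exact g1
          rw [e2]
          exact h2
        obtain ⟨N₀, hN₀⟩ := (lawG huniq (show 0 < 2 / Real.log (4 / 3) by positivity) hL hK hv hκ1.le hτ).exists_forall_of_atTop
        refine ⟨max N₀ 1, fun N hN q hq A hA hcard => ?_⟩
        have hN1 : 1 ≤ N := (le_max_right _ _).trans hN
        have g1 := hN₀ N ((le_max_left _ _).trans hN) (fun n => n % q ∈ A) (A.card / q) (hrho hq.1 hcard) (hrho1 hq.1 hA.1)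
          (fun j => by
            have h5 := hk0 1 (Or.inl rfl) (fun y => 0 ≤ y ∧ y ≤ ((1 : ℕ) : ℤ)) (hcard1 1) {p | p.1 = j ∧ (p.1 : ℤ) ≡ b [ZMOD r]}
            refine S₀.oddset (Or.inl rfl) hN1 hq.1 hq.2.1 hq.2.2 (hFs hA) h5 (fun n hn => ?_)
            rw [hQ 1 _ n hn]
            constructor
            · rintro ⟨k, g1, g2, g3⟩
              have g4 : k = j := g2
              subst g4
              exact ⟨g1, g3⟩
            · rintro ⟨g1, g3⟩
              exact ⟨j, g1, rfl, g3⟩)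
        rw [count_cl]
        refine le_trans (le_of_eq ?_) g1
        congr 2
        apply Finset.sum_congr rfl
        intro n hn
        congr 1
        apply ind_congr
        rw [bound_th]
        constructor
        · rintro ⟨g2, k, g3, g4, g5⟩; exact ⟨k, g3, g2, g4, g5⟩
        · rintro ⟨k, g3, g2, g4, g5⟩; exact ⟨g2, k, g3, g4, g5⟩
      · obtain ⟨N₀, _, h6⟩ := hmain (fun n => Merge (c n) (c j)) (fun i i' hi hi' h h' => by
          rw [hmer i' j hi' hj]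
          exact ((hmer i' i hi' hi).1 h').trans ((hmer i j hi hj).1 h)) _ (hrel (hmrg j hj).2) v hv0 hv τ hτ
        exact ⟨N₀, h6⟩
      · obtain ⟨N₀, _, h6⟩ := hmain _ hI3 _ (hrel hw) v hv0 hv τ hτ
        exact ⟨N₀, h6⟩
    · intro v hv0 hv ψ hψ hfr
      have h6 : β 1 = 1 := by
        by_contra hne
        have hlt : 0 < 1 - β 1 := by
          have := lt_of_le_of_ne hβ1 hne
          linarith
        obtain ⟨N₀, hN₀1, hN₀⟩ := hmain _ hI2 _ hMnot v hv0 hv ((1 - β 1) / 4) (by positivity)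
        have hψ' := hψ.eventually (gt_mem_nhds (show (0 : ℝ) < (1 - β 1) / 8 by positivity))
        obtain ⟨N, ⟨q, hq, A, hA, hcard, hfew⟩, hN, hψN⟩ :=
          (hfr.and_eventually ((eventually_ge_atTop N₀).and hψ')).exists
        have h5 := hN₀ N hN q hq A hA hcard
        have hN1' : 1 ≤ N := hN₀1.trans hN
        have hN1 : (1 : ℝ) ≤ N := by exact_mod_cast hN1'
        have hρ := hrho (v := v) hq.1 hcard
        have hρ0 : 0 < (A.card / q : ℝ) := lt_of_lt_of_le (by positivity) hρ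
        have h6 : 0 < (A.card / q : ℝ) * N := mul_pos hρ0 (by linarith)
        have h7 := (abs_le.1 h5).1
        nlinarith
      exact hK1.1 h6
    · intro q χ hq hχ
      exact hlF (flatP_char hq hη.le hχ)
    · intro q a b hq hab
      exact hlF (flatP_quad hη.le hq hab b)
    · intro p k hp hk hkp A hA h
      have h5 := flatI_pow hp hk hkp hA h
      exact ⟨h5.1, hlF h5.2⟩
  · obtain ⟨k0, hk0⟩ := ksync_fb R
    obtain ⟨η, κ, K, hη, hκ0, hκ1, hK, S₀⟩ := scaleF (adm3 (k := 1) odd_one) 2 k0 1 hε hε1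
    have hFl : ∀ {q : ℕ} {f : ℕ → ℂ}, Flat q η f → FlatP q η f := fun h => ⟨h.1, h.2, h.3⟩
    have hFs : ∀ {q : ℕ} {A : Finset ℕ}, FlatSet q η A → FlatI q η A := fun h => ⟨h.1, hFl h.2⟩
    refine ⟨η, κ, K + 1, hη, hκ0, hκ1, by linarith, fun B N q hN hq A hA X hX => ?_⟩
    have h5 := hk0 1 (Or.inl rfl) (fun y => 0 ≤ y ∧ y ≤ (R : ℤ)) (hcard1 R) B
    have h2 := (S₀.oddset (Or.inl rfl) hN hq.1 hq.2.1 hq.2.2 (hFs hA) h5 (hQ R B)).tr X hX
    rw [count_cl, count_ind]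
    refine le_trans h2 ?_
    have : 0 ≤ (N : ℝ) ^ (1 - κ) := by positivity
    nlinarith

end Pool.Agent.Results.MP_a247fa_nt.FlatResidues
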