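import Mathlib
import Pool.Agent.Results.MP_a247fa_nt.OddCriticalPoints
import Pool.Agent.Run7.h195.Iso5
import Pool.Agent.H723R2.LSWDens

set_option autoImplicit false

/-!
# Isolated critical points of Chamberland's map

For odd `n` let `c n` be the critical point of `f` in `(n, n + 1/2)`; its orbit follows the `3x+1`
orbit of `n` (starting file OddCriticalPoints). We compare the fate of `c n` with the fate of the even
integers near `n`, where near means at a distance of at most `exp ((log n) ^ θ)`, `θ < 1/2`. If some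
`c n` is not of known fate, there are many `c n` which are not of known fate although all even integers
near `n` are attracted by `A₁ = {1, 2}`, and there are many `c n` of known fate such that no even
integer near `n` is attracted by `A₁`. So all `c n` are of known fate if and only if a local rule has
only finitely many exceptions. The same holds for the orbits which tend to infinity, and for the orbits
which merge with the orbit of a given critical point.

Method. By a theorem of helper195 (`Run7/h195/Iso5`, used in MP_2d22f3_nt.IsolatedIntegers): if a set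
of positive integers is invariant under the `3x+1` map, not empty and not everything, then it has many
odd members without even members nearby.
-/

namespace Pool.Agent.Results.MP_a247fa_nt.IsolatedCriticalPoints

open Filter Topology

/-- Chamberland's map. -/
noncomputable def f (x : ℝ) : ℝ := x + 1 / 4 - (2 * x + 1) / 4 * Real.cos (Real.pi * x)

/-- The `3x+1` map. -/
def T (n : ℕ) : ℕ := if n % 2 = 0 then n / 2 else (3 * n + 1) / 2

/-- Points of attracting cycles contained in `(0,∞)`. -/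
def AttractingPoint (y : ℝ) : Prop :=
  0 < y ∧ 0 < Function.minimalPeriod f y ∧ |deriv (f^[Function.minimalPeriod f y]) y| < 1

/-- The orbit of `x` converges to the cycle of `y`. -/
def Attracts (y x : ℝ) : Prop :=
  ∃ j : ℕ, Tendsto (fun k : ℕ => f^[k * Function.minimalPeriod f y + j] x) atTop (𝓝 y)

/-- `x` is attracted by the cycle `A₁ = {1, 2}` or by the cycle `A₂ = {a, f a}`, or its orbit ends in a
point of `[1.02, 1.05]` of period two. -/
def KnownFate (a x : ℝ) : Prop :=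
  Attracts 1 x ∨ Attracts a x ∨ ∃ K, f^[K] x ∈ Set.Icc (1.02 : ℝ) 1.05 ∧ f^[K + 2] x = f^[K] x

/-- The orbit of `x` tends to infinity. -/
def Escapes (x : ℝ) : Prop := Tendsto (fun k : ℕ => f^[k] x) atTop atTop

/-- The orbits of `x` and `y` have, from some times on, the same integral parts. -/
def Merge (x y : ℝ) : Prop := ∃ i j : ℕ, ∀ k : ℕ, ⌊f^[k + i] x⌋ = ⌊f^[k + j] y⌋

/-- The odd `n` such that `c n` has the property `P` and no even integer `m ≥ 1` at a distance of at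
most `w n` from `n` has the property `Q`. -/
def Isolated (c : ℕ → ℝ) (w : ℕ → ℝ) (P Q : ℝ → Prop) : Set ℕ :=
  {n | n % 2 = 1 ∧ P (c n) ∧ ∀ m : ℕ, 1 ≤ m → m % 2 = 0 → |(m : ℝ) - n| ≤ w n → ¬ Q m}

/-- The distance `exp ((log n) ^ θ)`. -/
noncomputable def radius (θ : ℝ) (n : ℕ) : ℝ := Real.exp (Real.log n ^ θ)

/-- The conclusions on the odd `n` such that `c n` has the property `P` and no even integer near `n` has
the property `Q`. -/
def ManyIsolated (c : ℕ → ℝ) (P Q : ℝ → Prop) : Prop :=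
  (∀ M : ℝ, 0 ≤ M → ¬ Summable fun n : Isolated c (fun _ => M) P Q => 1 / ((n : ℕ) : ℝ)) ∧
    ∀ θ : ℝ, 0 < θ → θ < 1 / 2 → (Isolated c (radius θ) P Q).Infinite ∧
      ¬ Summable fun n : Isolated c (radius θ) P Q => radius θ n / ((n : ℕ) : ℝ)

/-! ### proofs -/

open Pool.Agent.Run7.h195.Iso

open Pool.Agent.H723R2.LSW (Mer Wild wild_mer)

theorem zT (k n : ℕ) : Pool.Agent.H723R2.LSW.T^[k] (n : ℤ) = ((T^[k] n : ℕ) : ℤ) := by
  induction k with
  | zero => rfl
  | succ k ih =>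
    rw [Function.iterate_succ_apply', Function.iterate_succ_apply', ih]
    obtain ⟨m, hm⟩ : ∃ m, m = T^[k] n := ⟨_, rfl⟩
    rw [← hm]
    rcases Nat.even_or_odd' m with ⟨l, h | h⟩
    · rw [h]
      push_cast
      rw [Pool.Agent.H723R2.LSW.T_even]
      unfold T
      rw [if_pos (by omega)]
      omega
    · rw [h]
      push_cast
      rw [Pool.Agent.H723R2.LSW.T_odd]
      unfold T
      rw [if_neg (by omega)]
      omega

theorem T_iter_pos {n : ℕ} (hn : 1 ≤ n) (k : ℕ) : 1 ≤ T^[k] n :=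
  Pool.Agent.H934R2.Ch.T_iter_pos hn k

/-- orbits which follow `T` -/
def Fol (n : ℕ) (x : ℝ) : Prop := ∀ k : ℕ, ((T^[k] n : ℕ) : ℝ) ≤ f^[k] x ∧
  f^[k] x ≤ (T^[k] n : ℕ) + 5 / (6 * (2 * ((T^[k] n : ℕ) : ℝ) + 1))

theorem f_nat (n : ℕ) : f n = (T n : ℕ) := by
  rcases Nat.even_or_odd' n with ⟨l, h | h⟩
  · have h1 := Pool.Agent.H934R2.Ch.f_even l 0
    simp only [add_zero, mul_zero, Real.cos_zero, sub_self, zero_mul] at h1
    have h2 : f ((2 * l : ℕ) : ℝ) = l := h1
    rw [h, h2]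
    congr 1
    unfold T
    rw [if_pos (by omega)]
    omega
  · have h1 := Pool.Agent.H934R2.Ch.f_odd l 0
    simp only [add_zero, mul_zero, Real.cos_zero, sub_self, zero_mul] at h1
    have h2 : f ((2 * l + 1 : ℕ) : ℝ) = 3 * l + 2 := h1
    rw [h, h2]
    have h3 : T (2 * l + 1) = 3 * l + 2 := by
      unfold T
      rw [if_neg (by omega)]
      omega
    rw [h3]
    push_cast
    ring

theorem f_iter_nat (k n : ℕ) : f^[k] (n : ℝ) = (T^[k] n : ℕ) := by
  induction k with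
  | zero => rfl
  | succ k ih => rw [Function.iterate_succ_apply', Function.iterate_succ_apply', ih, f_nat]

theorem fol_nat (n : ℕ) : Fol n (n : ℝ) := by
  intro k
  rw [f_iter_nat]
  have : (0 : ℝ) ≤ 5 / (6 * (2 * ((T^[k] n : ℕ) : ℝ) + 1)) := by positivity
  exact ⟨le_rfl, by linarith⟩

theorem fol_floor {n : ℕ} (hn : 1 ≤ n) {x : ℝ} (h : Fol n x) (k : ℕ) :
    ⌊f^[k] x⌋ = (T^[k] n : ℕ) := by
  obtain ⟨h1, h2⟩ := h k
  have h3 : (1 : ℝ) ≤ (T^[k] n : ℕ) := by exact_mod_cast T_iter_pos hn k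
  have h4 : 5 / (6 * (2 * ((T^[k] n : ℕ) : ℝ) + 1)) < 1 := by
    rw [div_lt_one (by positivity)]
    linarith
  rw [Int.floor_eq_iff]
  push_cast
  constructor
  · exact h1
  · linarith

theorem merge_iff {n m : ℕ} (hn : 1 ≤ n) (hm : 1 ≤ m) {x y : ℝ} (hx : Fol n x) (hy : Fol m y) :
    Merge x y ↔ Mer (n : ℤ) (m : ℤ) := by
  constructor
  · rintro ⟨i, j, h⟩
    have h1 := h 0
    rw [Nat.zero_add, Nat.zero_add, fol_floor hn hx, fol_floor hm hy] at h1
    exact ⟨i, j, by rw [zT, zT]; exact h1⟩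
  · rintro ⟨i, j, h⟩
    refine ⟨i, j, fun k => ?_⟩
    rw [fol_floor hn hx, fol_floor hm hy]
    rw [← zT, ← zT, Function.iterate_add_apply, Function.iterate_add_apply, h]

theorem esc_iff {n : ℕ} (hn : 1 ≤ n) {x : ℝ} (h : Fol n x) : Escapes x ↔ Wild (n : ℤ) := by
  constructor
  · intro h1
    by_contra hcon
    obtain ⟨k, p, c, hp, hc, hk⟩ := Pool.Agent.H723R2.LSW.tame_hits hcon
    obtain ⟨m, hm⟩ : ∃ m, m = T^[k] n := ⟨_, rfl⟩
    have hc0 : c = (m : ℤ) := by rw [← hk, zT, hm]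
    have hper : T^[p] m = m := by
      have h2 := zT p m
      rw [← hc0, hc, hc0] at h2
      exact_mod_cast h2.symm
    have hperi : ∀ i : ℕ, T^[p * i] m = m := by
      intro i
      rw [Function.iterate_mul]
      exact Function.iterate_fixed hper i
    have h3 : ∀ i : ℕ, f^[p * i + k] x ≤ m + 1 := by
      intro i
      have h4 := (h (p * i + k)).2
      have h5 : T^[p * i + k] n = m := by
        rw [Function.iterate_add_apply, ← hm, hperi]
      rw [h5] at h4
      have h6 : 5 / (6 * (2 * (m : ℝ) + 1)) ≤ 1 := by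
        rw [div_le_one (by positivity)]
        have h7 : 1 ≤ m := by rw [hm]; exact T_iter_pos hn k
        have : (1 : ℝ) ≤ m := by exact_mod_cast h7
        linarith
      linarith
    have h7 : Tendsto (fun i : ℕ => p * i + k) atTop atTop :=
      tendsto_atTop_mono (fun i => by
        show i ≤ p * i + k
        have := Nat.le_mul_of_pos_left i hp
        omega) tendsto_id
    have h8 := (h1.comp h7).eventually_ge_atTop ((m : ℝ) + 2)
    obtain ⟨i, hi⟩ := h8.exists
    have h9 := h3 i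
    have h10 : (m : ℝ) + 2 ≤ f^[p * i + k] x := hi
    linarith
  · intro h1
    have hinj : Function.Injective (fun k : ℕ => T^[k] n) := by
      intro i j hij
      apply h1 i j
      rw [zT, zT]
      exact_mod_cast hij
    have h2 : Tendsto (fun k : ℕ => T^[k] n) atTop atTop := by
      have h3 := hinj.tendsto_cofinite
      rwa [Nat.cofinite_eq_atTop] at h3
    have h4 : Tendsto (fun k : ℕ => ((T^[k] n : ℕ) : ℝ)) atTop atTop :=
      tendsto_natCast_atTop_atTop.comp h2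
    exact tendsto_atTop_mono (fun k => (h k).1) h4

theorem T_one_iter (l : ℕ) : T^[2 * l] 1 = 1 := by
  rw [Function.iterate_mul]
  exact Function.iterate_fixed (by decide) l

theorem attr_iff (m : ℕ) : Attracts 1 (m : ℝ) ↔ ∃ k, T^[k] m = 1 := by
  have hmin : Function.minimalPeriod f 1 = 2 := Pool.Agent.H934R2.Ch.minPer_one
  constructor
  · rintro ⟨j, hj⟩
    rw [hmin] at hj
    have h1 : ∀ᶠ k : ℕ in atTop, dist (f^[k * 2 + j] (m : ℝ)) 1 < 1 / 2 :=
      hj.eventually (Metric.ball_mem_nhds _ (by norm_num))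
    obtain ⟨k, hk⟩ := h1.exists
    rw [f_iter_nat, Real.dist_eq] at hk
    refine ⟨k * 2 + j, ?_⟩
    obtain ⟨t, ht⟩ : ∃ t, t = T^[k * 2 + j] m := ⟨_, rfl⟩
    rw [← ht] at hk ⊢
    rw [abs_lt] at hk
    have h2 : (0 : ℝ) < t := by linarith [hk.1]
    have h3 : (t : ℝ) < 2 := by linarith [hk.2]
    have h4 : 0 < t := by exact_mod_cast h2
    have h5 : t < 2 := by exact_mod_cast h3
    omega
  · rintro ⟨j, hj⟩
    refine ⟨j, ?_⟩
    rw [hmin]
    refine tendsto_const_nhds.congr fun k => ?_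
    rw [f_iter_nat, Function.iterate_add_apply, hj, mul_comm, T_one_iter]
    norm_num

theorem inv_reach (n : ℕ) (_ : 1 ≤ n) :
    (∃ k, T^[k] n = 1) ↔ ∃ k, T^[k] (Pool.Agent.H499R2.ND.Tn n) = 1 := by
  have e : Pool.Agent.H499R2.ND.Tn n = T n := rfl
  rw [e]
  constructor
  · rintro ⟨k, hk⟩
    rcases k with _ | k
    · have h1 : n = 1 := hk
      subst h1
      exact ⟨1, by decide⟩
    · exact ⟨k, by rwa [Function.iterate_succ_apply] at hk⟩
  · rintro ⟨k, hk⟩
    exact ⟨k + 1, by rwa [Function.iterate_succ_apply]⟩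

theorem zT1 (n : ℕ) : ((T n : ℕ) : ℤ) = Pool.Agent.H723R2.LSW.T n := (zT 1 n).symm

theorem mer_T (n : ℕ) : Mer (n : ℤ) ((T n : ℕ) : ℤ) := ⟨1, 0, by rw [zT1]; rfl⟩

theorem inv_mer (l : ℤ) (n : ℕ) (_ : 1 ≤ n) :
    Mer (n : ℤ) l ↔ Mer ((Pool.Agent.H499R2.ND.Tn n : ℕ) : ℤ) l := by
  have e : Pool.Agent.H499R2.ND.Tn n = T n := rfl
  rw [e]
  exact ⟨(mer_T n).symm.trans, (mer_T n).trans⟩

theorem inv_wild (n : ℕ) (_ : 1 ≤ n) :
    Wild (n : ℤ) ↔ Wild ((Pool.Agent.H499R2.ND.Tn n : ℕ) : ℤ) := by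
  have e : Pool.Agent.H499R2.ND.Tn n = T n := rfl
  rw [e]
  exact ⟨wild_mer (mer_T n), wild_mer (mer_T n).symm⟩

theorem iso_eq {c : ℕ → ℝ} {w : ℕ → ℝ} {P Q : ℝ → Prop} {R : ℕ → Prop}
    (hP : ∀ n : ℕ, n % 2 = 1 → (P (c n) ↔ R n)) (hQ : ∀ m : ℕ, 1 ≤ m → (Q m ↔ R m)) :
    Isolated c w P Q = {n : ℕ | Lone w R n} := by
  ext n
  constructor
  · rintro ⟨h1, h2, h3⟩
    exact ⟨h1, (hP n h1).1 h2, fun m hm hm2 hd hR => h3 m hm hm2 hd ((hQ m hm).2 hR)⟩
  · rintro ⟨h1, h2, h3⟩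
    exact ⟨h1, (hP n h1).2 h2, fun m hm hm2 hd hR => h3 m hm hm2 hd ((hQ m hm).1 hR)⟩

theorem summable_of_finite {A : Set ℕ} (h : A.Finite) (g : ℕ → ℝ) :
    Summable fun n : A => g n := by
  have := h.to_subtype
  exact Summable.of_finite

theorem many_of {c : ℕ → ℝ} {P Q : ℝ → Prop} {R : ℕ → Prop}
    (hR : ∀ n : ℕ, 1 ≤ n → (R n ↔ R (Pool.Agent.H499R2.ND.Tn n)))
    (hP : ∀ n : ℕ, n % 2 = 1 → (P (c n) ↔ R n)) (hQ : ∀ m : ℕ, 1 ≤ m → (Q m ↔ R m))
    (h1 : ∃ n, 1 ≤ n ∧ R n) (h2 : ∃ n, 1 ≤ n ∧ ¬ R n) : ManyIsolated c P Q := by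
  have hθ : ∀ θ : ℝ, 0 < θ → θ < 1 / 2 →
      ¬ Summable fun n : Isolated c (radius θ) P Q => radius θ n / ((n : ℕ) : ℝ) := by
    intro θ hθ hθ1
    rw [iso_eq hP hQ]
    exact main_ww hR h1 h2 hθ hθ1
  refine ⟨fun M hM => ?_, fun θ h3 h4 => ⟨fun hfin => hθ θ h3 h4
    (summable_of_finite hfin fun n => radius θ n / (n : ℝ)), hθ θ h3 h4⟩⟩
  rw [iso_eq hP hQ]
  exact main_const hR h1 h2 M hM

theorem many_both {c : ℕ → ℝ} {P Q : ℝ → Prop} {R : ℕ → Prop}
    (hR : ∀ n : ℕ, 1 ≤ n → (R n ↔ R (Pool.Agent.H499R2.ND.Tn n)))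
    (hP : ∀ n : ℕ, n % 2 = 1 → (P (c n) ↔ R n)) (hQ : ∀ m : ℕ, 1 ≤ m → (Q m ↔ R m))
    (h1 : ∃ n, 1 ≤ n ∧ R n) (h2 : ∃ n, 1 ≤ n ∧ ¬ R n) :
    ManyIsolated c P Q ∧ ManyIsolated c (fun x => ¬ P x) (fun x => ¬ Q x) :=
  ⟨many_of hR hP hQ h1 h2, many_of (R := fun n => ¬ R n) (fun n hn => not_congr (hR n hn))
    (fun n hn => not_congr (hP n hn)) (fun m hm => not_congr (hQ m hm)) h2
    (by obtain ⟨n, h3, h4⟩ := h1; exact ⟨n, h3, not_not.2 h4⟩)⟩

theorem finite_of {c : ℕ → ℝ} {w : ℕ → ℝ} {P Q : ℝ → Prop}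
    (h : ∀ᶠ n : ℕ in atTop, n ∉ Isolated c w P Q) : (Isolated c w P Q).Finite := by
  obtain ⟨N, hN⟩ := h.exists_forall_of_atTop
  apply (Set.finite_Iio N).subset
  intro n hn
  by_contra hcon
  exact hN n (by simpa using hcon) hn

theorem tfae_of {c : ℕ → ℝ} {P Q : ℝ → Prop} {R : ℕ → Prop}
    (hR : ∀ n : ℕ, 1 ≤ n → (R n ↔ R (Pool.Agent.H499R2.ND.Tn n)))
    (hP : ∀ n : ℕ, n % 2 = 1 → (P (c n) ↔ R n)) (hQ : ∀ m : ℕ, 1 ≤ m → (Q m ↔ R m))
    (h1 : ∃ n, 1 ≤ n ∧ R n) (θ : ℝ) (hθ : 0 < θ) (hθ1 : θ < 1 / 2) :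
    [∀ n : ℕ, n % 2 = 1 → P (c n),
      ∀ᶠ n : ℕ in atTop, n % 2 = 1 →
        (∀ m : ℕ, 1 ≤ m → m % 2 = 0 → |(m : ℝ) - n| ≤ radius θ n → Q m) → P (c n),
      ∀ᶠ n : ℕ in atTop, n % 2 = 1 → P (c n) →
        ∃ m : ℕ, 1 ≤ m ∧ m % 2 = 0 ∧ |(m : ℝ) - n| ≤ radius θ n ∧ Q m,
      Summable fun n : Isolated c (radius θ) (fun x => ¬ P x) (fun x => ¬ Q x) =>
        radius θ n / ((n : ℕ) : ℝ),
      Summable fun n : Isolated c (radius θ) P Q => radius θ n / ((n : ℕ) : ℝ)].TFAE := by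
  have hall : (∀ n : ℕ, n % 2 = 1 → P (c n)) → ∀ n : ℕ, 1 ≤ n → R n := by
    intro h n
    induction n using Nat.strong_induction_on with
    | _ n ih =>
      intro hn
      rcases Nat.mod_two_eq_zero_or_one n with h2 | h2
      · rw [hR n hn]
        have e : Pool.Agent.H499R2.ND.Tn n = n / 2 := by
          unfold Pool.Agent.H499R2.ND.Tn; rw [if_pos h2]
        rw [e]
        exact ih _ (by omega) (by omega)
      · exact (hP n h2).1 (h n h2)
  have hnot : (¬ ∀ n : ℕ, n % 2 = 1 → P (c n)) → ∃ n, 1 ≤ n ∧ ¬ R n := by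
    intro h
    push Not at h
    obtain ⟨n, h3, h4⟩ := h
    exact ⟨n, by omega, fun h5 => h4 ((hP n h3).2 h5)⟩
  tfae_have 1 → 2 := fun h => Eventually.of_forall fun n hn _ => h n hn
  tfae_have 1 → 3 := fun h => Eventually.of_forall fun n hn _ =>
    ⟨n + 1, by omega, by omega, by
      push_cast
      rw [add_sub_cancel_left, abs_one]
      exact one_le_ww θ n, (hQ _ (by omega)).2 (hall h _ (by omega))⟩
  tfae_have 2 → 4 := by
    intro h
    refine summable_of_finite (finite_of ?_) fun n => radius θ n / (n : ℝ)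
    filter_upwards [h] with n hn hn'
    obtain ⟨h3, h4, h5⟩ := hn'
    exact h4 (hn h3 fun m hm1 hm2 hm3 => not_not.1 (h5 m hm1 hm2 hm3))
  tfae_have 3 → 5 := by
    intro h
    refine summable_of_finite (finite_of ?_) fun n => radius θ n / (n : ℝ)
    filter_upwards [h] with n hn hn'
    obtain ⟨h3, h4, h5⟩ := hn'
    obtain ⟨m, hm1, hm2, hm3, hm4⟩ := hn h3 h4
    exact h5 m hm1 hm2 hm3 hm4
  tfae_have 4 → 1 := by
    intro h
    by_contra hcon
    exact (((many_both hR hP hQ h1 (hnot hcon)).2.2 θ hθ hθ1).2) h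
  tfae_have 5 → 1 := by
    intro h
    by_contra hcon
    exact (((many_both hR hP hQ h1 (hnot hcon)).1.2 θ hθ hθ1).2) h
  tfae_finish

/-- For odd `n` let `c n` be the critical point of `f` in `(n, n + 1/2)`.

(1) If some `c n` is not of known fate (attracted by `A₁` or `A₂`, or ending in a point of `[1.02, 1.05]`
of period two), then the odd `n` such that `c n` is of known fate, while no even integer at a distance
of at most `M` from `n` is attracted by `A₁ = {1, 2}`, have a divergent sum of reciprocals, for every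
`M`; and for `0 < θ < 1/2` there are infinitely many such `n` for the distance `exp ((log n) ^ θ)`, with a
divergent sum of the `exp ((log n) ^ θ) / n`. The same is true for the odd `n` such that `c n` is not
of known fate, while all even integers near `n` are attracted by `A₁`.

(2) If the orbit of some `c n` tends to infinity, the same is true for the odd `n` such that the orbit
of `c n` tends to infinity and those of the even integers near `n` do not, and conversely.

(3) Let `l` be odd. If the orbits of some `c n` do not merge with the orbit of `c l`, the same is true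
for the odd `n` such that the orbit of `c n` merges with that of `c l` and those of the even integers
near `n` do not, and conversely.

(4) Let `0 < θ < 1/2`. The following are equivalent: (i) all `c n` are of known fate; (ii) for all but
finitely many odd `n`, if all even integers at a distance of at most `exp ((log n) ^ θ)` from `n` are
attracted by `A₁`, then `c n` is of known fate; (iii) for all but finitely many odd `n` such that `c n`
is of known fate, some even integer at a distance of at most `exp ((log n) ^ θ)` from `n` is attracted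
by `A₁`; (iv) the sum of the `exp ((log n) ^ θ) / n` over the exceptions to (ii) converges; (v) the
same for (iii). -/
theorem result : ∃ (a : ℝ) (c : ℕ → ℝ),
    (a ∈ Set.Icc (1.19 : ℝ) 1.196 ∧ f (f a) = a ∧
      ∀ y, y = 1 ∨ y = 2 ∨ y = a ∨ y = f a → AttractingPoint y) ∧
    (∀ n : ℕ, n % 2 = 1 → (n : ℝ) < c n ∧ c n < n + 1 / 2 ∧ deriv f (c n) = 0 ∧
      ∀ x : ℝ, (n : ℝ) < x → x < n + 1 / 2 → deriv f x = 0 → x = c n) ∧
    ((∃ n : ℕ, n % 2 = 1 ∧ ¬ KnownFate a (c n)) →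
      ManyIsolated c (KnownFate a) (Attracts 1) ∧
      ManyIsolated c (fun x => ¬ KnownFate a x) (fun x => ¬ Attracts 1 x)) ∧
    ((∃ n : ℕ, n % 2 = 1 ∧ Escapes (c n)) →
      ManyIsolated c Escapes Escapes ∧
      ManyIsolated c (fun x => ¬ Escapes x) (fun x => ¬ Escapes x)) ∧
    (∀ l : ℕ, l % 2 = 1 → (∃ n : ℕ, n % 2 = 1 ∧ ¬ Merge (c n) (c l)) →
      ManyIsolated c (fun x => Merge x (c l)) (fun x => Merge x (c l)) ∧
      ManyIsolated c (fun x => ¬ Merge x (c l)) (fun x => ¬ Merge x (c l))) ∧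
    ∀ θ : ℝ, 0 < θ → θ < 1 / 2 →
      [∀ n : ℕ, n % 2 = 1 → KnownFate a (c n),
        ∀ᶠ n : ℕ in atTop, n % 2 = 1 →
          (∀ m : ℕ, 1 ≤ m → m % 2 = 0 → |(m : ℝ) - n| ≤ radius θ n → Attracts 1 m) →
          KnownFate a (c n),
        ∀ᶠ n : ℕ in atTop, n % 2 = 1 → KnownFate a (c n) →
          ∃ m : ℕ, 1 ≤ m ∧ m % 2 = 0 ∧ |(m : ℝ) - n| ≤ radius θ n ∧ Attracts 1 m,
        Summable fun n : Isolated c (radius θ) (fun x => ¬ KnownFate a x)
          (fun x => ¬ Attracts 1 x) => radius θ n / ((n : ℕ) : ℝ),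
        Summable fun n : Isolated c (radius θ) (KnownFate a) (Attracts 1) =>
          radius θ n / ((n : ℕ) : ℝ)].TFAE := by
  obtain ⟨a, ha, hfa, _, hattr, _, _, hodd⟩ :=
    Pool.Agent.Results.MP_a247fa_nt.OddCriticalPoints.result
  choose! c hc1 hc2 hc3 hc4 hc5 hc6 hc7 using hodd
  have hfol : ∀ n : ℕ, n % 2 = 1 → Fol n (c n) := fun n hn k => hc5 n hn k
  have hkf : ∀ n : ℕ, n % 2 = 1 → (KnownFate a (c n) ↔ ∃ k, T^[k] n = 1) :=
    fun n hn => (hc6 n hn).symm
  have hat : ∀ m : ℕ, 1 ≤ m → (Attracts 1 (m : ℝ) ↔ ∃ k, T^[k] m = 1) := fun m _ => attr_iff m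
  refine ⟨a, c, ⟨ha, hfa, hattr⟩, fun n hn => ⟨hc1 n hn, hc2 n hn, hc3 n hn, hc4 n hn⟩, ?_, ?_, ?_, ?_⟩
  · rintro ⟨n, hn, hnk⟩
    exact many_both (R := fun n => ∃ k, T^[k] n = 1) inv_reach hkf hat ⟨1, le_rfl, 0, rfl⟩
      ⟨n, by omega, fun h => hnk ((hkf n hn).2 h)⟩
  · rintro ⟨n, hn, hnk⟩
    refine many_both (R := fun n => Wild (n : ℤ)) inv_wild (fun n hn => esc_iff (by omega) (hfol n hn))
      (fun m hm => esc_iff hm (fol_nat m)) ⟨n, by omega, (esc_iff (by omega) (hfol n hn)).1 hnk⟩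
      ⟨1, le_rfl, ?_⟩
    intro h
    have := h 2 0 (by rw [zT]; decide)
    omega
  · rintro l hl ⟨n, hn, hnk⟩
    refine many_both (R := fun n => Mer (n : ℤ) (l : ℤ)) (inv_mer l)
      (fun n hn => merge_iff (by omega) (by omega) (hfol n hn) (hfol l hl))
      (fun m hm => merge_iff hm (by omega) (fol_nat m) (hfol l hl))
      ⟨l, by omega, Pool.Agent.H723R2.LSW.Mer.refl _⟩ ⟨n, by omega, fun h => hnk
        ((merge_iff (by omega) (by omega) (hfol n hn) (hfol l hl)).2 h)⟩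
  · intro θ hθ hθ1
    exact tfae_of (R := fun n => ∃ k, T^[k] n = 1) inv_reach hkf hat ⟨1, le_rfl, 0, rfl⟩ θ hθ hθ1

end Pool.Agent.Results.MP_a247fa_nt.IsolatedCriticalPoints
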