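import Mathlib
import Pool.Agent.Results.MP_a247fa_nt.OddCriticalPoints
import Pool.Agent.H723R2.LSWDens
import Pool.Agent.Run7.h145.QL.L4
import Pool.Agent.Run7.h145.QL.Y2

set_option autoImplicit false

/-!
The critical points of Chamberland's map above the odd values of quadratic polynomials in several
variables.

The values (for example the odd sums of two squares) have density zero or large multiplicities; all
statements count the points of a box at which the value has the property.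
-/

namespace Pool.Agent.Results.MP_a247fa_nt.QuadraticValues

open Filter Topology Finset

/-- Chamberland's map. -/
noncomputable def f (x : ℝ) : ℝ := x + 1 / 4 - (2 * x + 1) / 4 * Real.cos (Real.pi * x)

/-- The `3x+1` map. -/
def T (n : ℕ) : ℕ := if n % 2 = 0 then n / 2 else (3 * n + 1) / 2

/-- Points of attracting cycles contained in `(0,∞)`. -/
def AttractingPoint (y : ℝ) : Prop :=
  0 < y ∧ 0 < Function.minimalPeriod f y ∧ |deriv (f^[Function.minimalPeriod f y]) y| < 1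

/-- The orbit of `x` converges to the cycle of `y`. -/
def Attracts (y x : ℝ) : Prop :=
  ∃ j : ℕ, Tendsto (fun k : ℕ => f^[k * Function.minimalPeriod f y + j] x) atTop (𝓝 y)

/-- `x` is attracted by the cycle `A₁ = {1, 2}` or by the cycle `A₂ = {a, f a}`, or its orbit ends in a
point of `[1.02, 1.05]` of period two. -/
def KnownFate (a x : ℝ) : Prop :=
  Attracts 1 x ∨ Attracts a x ∨ ∃ K, f^[K] x ∈ Set.Icc (1.02 : ℝ) 1.05 ∧ f^[K + 2] x = f^[K] x

/-- The orbit of `x` is below `2` for the first time at time `k`. -/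
def Arrives (k : ℕ) (x : ℝ) : Prop := f^[k] x < 2 ∧ ∀ i < k, 2 ≤ f^[i] x

/-- The orbits of `x` and `y` have, from some times on, the same integral parts. -/
def Merge (x y : ℝ) : Prop := ∃ i j : ℕ, ∀ k : ℕ, ⌊f^[k + i] x⌋ = ⌊f^[k + j] y⌋

/-- `m` is the least element of a cycle of `T`. -/
def IsCycleRep (m : ℕ) : Prop := 1 ≤ m ∧ (∃ p : ℕ, 0 < p ∧ T^[p] m = m) ∧ ∀ j : ℕ, m ≤ T^[j] m

/-- `2 log n / log (4/3) + x * log 3 * √(2 log n / (log (4/3))^3)` -/
noncomputable def bound (x : ℝ) (n : ℕ) : ℝ :=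
  2 / Real.log (4 / 3) * Real.log n +
    x * (Real.log 3 * Real.sqrt (2 * Real.log n / Real.log (4 / 3) ^ 3))

/-- The distribution function of the standard normal law. -/
noncomputable def Phi (x : ℝ) : ℝ :=
  ProbabilityTheory.cdf (ProbabilityTheory.gaussianReal 0 1) x

/-- The value at `x` of the quadratic polynomial with quadratic part `∑ A i j x i x j`, linear part
`∑ l i x i` and constant term `c`. -/
def Val {k : ℕ} (A : Fin k → Fin k → ℤ) (l : Fin k → ℤ) (c : ℤ) (x : Fin k → ℤ) : ℤ :=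
  ∑ i, ∑ j, A i j * x i * x j + ∑ i, l i * x i + c

/-- The quadratic form `∑ A i j x i x j` has rank at least two: the symmetric matrix
`A i j + A j i` has a minor of order two that is not zero. -/
def RankTwo {k : ℕ} (A : Fin k → Fin k → ℤ) : Prop :=
  ∃ p q r s : Fin k, (A p r + A r p) * (A q s + A s q) ≠ (A p s + A s p) * (A q r + A r q)

/-- The integral points `x` of the box `a i < x i ≤ b i` with `x ∈ D` at which the polynomial has a
positive value with `u < value ≤ v`. -/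
def Points {k : ℕ} (A : Fin k → Fin k → ℤ) (l : Fin k → ℤ) (c : ℤ) (a b : Fin k → ℤ) (u v : ℤ)
    (D : Set (Fin k → ℤ)) : Set (Fin k → ℤ) :=
  {x | (∀ i, a i < x i ∧ x i ≤ b i) ∧ (u < Val A l c x ∧ Val A l c x ≤ v) ∧ 0 < Val A l c x ∧ x ∈ D}

/-- THE FREQUENCY of the property `P` among the odd values of quadratic polynomials is `l`: for every
integral quadratic form `A` of rank at least two in `k` variables, all `B, ε > 0` and `q ≥ 1` there is
`R₀` such that for all `R ≥ R₀`, for all polynomials with quadratic part `A`, linear coefficients at most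
`B R` and constant term at most `B R ^ 2`, all boxes in `[-R, R] ^ k`, all `u`, `v` and all sets `D` of
integral points periodic modulo `q`, the number of the points `x ∈ D` of the box with an odd positive
value between `u` and `v` that has the property `P` is `l` times the number of all points `x ∈ D` of the
box with an odd positive value between `u` and `v`, up to `ε R ^ k`. -/
def Frequency (P : ℕ → Prop) (f : ℝ) : Prop := ∀ (k : ℕ) (A : Fin k → Fin k → ℤ), RankTwo A →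
  ∀ (B ε : ℝ) (q : ℕ), 0 < B → 0 < ε → 1 ≤ q → ∃ R₀ : ℕ, ∀ R : ℕ, R₀ ≤ R →
  ∀ (l : Fin k → ℤ) (c : ℤ) (a b : Fin k → ℤ), (∀ i, |(l i : ℝ)| ≤ B * R) → |(c : ℝ)| ≤ B * R ^ 2 →
  (∀ i, |a i| ≤ R ∧ |b i| ≤ R) → ∀ (u v : ℤ) (D : Set (Fin k → ℤ)),
  (∀ x y : Fin k → ℤ, (∀ i, x i ≡ y i [ZMOD q]) → (x ∈ D ↔ y ∈ D)) →
  |({x ∈ Points A l c a b u v D | Odd (Val A l c x) ∧ P (Val A l c x).toNat}.ncard : ℝ) -
    f * {x ∈ Points A l c a b u v D | Odd (Val A l c x)}.ncard| ≤ ε * R ^ k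

theorem freq_of {P Q : ℕ → Prop} {f : ℝ} (h : Pool.Agent.Run7.h145.QL.QV.Fr P f) (n0 : ℕ)
    (hPQ : ∀ n, n0 ≤ n → Odd n → (P n ↔ Q n)) : Frequency Q f :=
  Pool.Agent.Run7.h145.QL.X.odd_of h n0 hPQ

open Pool.Agent.H723R2.LSW (Mer Wild cast_iter)

theorem zT (k n : ℕ) : Pool.Agent.H723R2.LSW.T^[k] (n : ℤ) = ((T^[k] n : ℕ) : ℤ) :=
  Pool.Agent.Run7.h145.QL.Tz_nat k n

theorem T_iter_pos {n : ℕ} (hn : 1 ≤ n) (k : ℕ) : 1 ≤ T^[k] n :=
  Pool.Agent.H934R2.Ch.T_iter_pos hn k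

/-- orbits which follow `T` -/
def Fol (n : ℕ) (x : ℝ) : Prop := ∀ k : ℕ, ((T^[k] n : ℕ) : ℝ) ≤ f^[k] x ∧
  f^[k] x ≤ (T^[k] n : ℕ) + 5 / (6 * (2 * ((T^[k] n : ℕ) : ℝ) + 1))

theorem fol_floor {n : ℕ} (hn : 1 ≤ n) {x : ℝ} (h : Fol n x) (k : ℕ) : ⌊f^[k] x⌋ = (T^[k] n : ℕ) := by
  obtain ⟨h1, h2⟩ := h k
  have h3 : (1 : ℝ) ≤ (T^[k] n : ℕ) := by exact_mod_cast T_iter_pos hn k
  have h4 : 5 / (6 * (2 * ((T^[k] n : ℕ) : ℝ) + 1)) < 1 := by
    rw [div_lt_one (by positivity)]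
    linarith
  rw [Int.floor_eq_iff]
  push_cast
  constructor
  · exact h1
  · linarith

theorem merge_iff {n m : ℕ} (hn : 1 ≤ n) (hm : 1 ≤ m) {x y : ℝ} (hx : Fol n x) (hy : Fol m y) :
    Merge x y ↔ Mer (n : ℤ) (m : ℤ) := by
  constructor
  · rintro ⟨i, j, h⟩
    have h1 := h 0
    rw [Nat.zero_add, Nat.zero_add, fol_floor hn hx, fol_floor hm hy] at h1
    exact ⟨i, j, by rw [zT, zT]; exact h1⟩
  · rintro ⟨i, j, h⟩
    refine ⟨i, j, fun k => ?_⟩
    rw [fol_floor hn hx, fol_floor hm hy]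
    rw [← zT, ← zT, Function.iterate_add_apply, Function.iterate_add_apply, h]

theorem arr_iff {n : ℕ} (hn : 1 ≤ n) {x : ℝ} (h : Fol n x) (k : ℕ) : f^[k] x < 2 ↔ T^[k] n = 1 := by
  have h1 := T_iter_pos hn k
  have h2 := h k
  constructor
  · intro h3
    have h4 : ((T^[k] n : ℕ) : ℝ) < 2 := lt_of_le_of_lt h2.1 h3
    have h5 : T^[k] n < 2 := by exact_mod_cast h4
    omega
  · intro h3
    rw [h3] at h2
    have h4 := h2.2
    norm_num at h4
    linarith

theorem arrives_iff {n : ℕ} (hn : 1 ≤ n) {x : ℝ} (h : Fol n x) (k : ℕ) :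
    Arrives k x ↔ Pool.Agent.H499R2.HL.H k n := by
  show (f^[k] x < 2 ∧ ∀ i < k, 2 ≤ f^[i] x) ↔ (T^[k] n = 1 ∧ ∀ i < k, T^[i] n ≠ 1)
  rw [arr_iff hn h k]
  refine and_congr_right fun _ => forall₂_congr fun i _ => ?_
  rw [← not_lt, arr_iff hn h i]


theorem fol_tendsto {n : ℕ} (hn : 1 ≤ n) {x : ℝ} (h : Fol n x) :
    Tendsto (fun k : ℕ => f^[k] x) atTop atTop ↔ Wild (n : ℤ) := by
  constructor
  · intro h1
    by_contra hcon
    obtain ⟨k, p, c, hp, hc, hk⟩ := Pool.Agent.H723R2.LSW.tame_hits hcon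
    -- the orbit is periodic from time `k` on
    have hc0 : c = ((T^[k] n : ℕ) : ℤ) := by rw [← hk, zT]
    set m := T^[k] n with hm
    have hper : T^[p] m = m := by
      have h2 := zT p m
      rw [← hc0, hc, hc0] at h2
      exact_mod_cast h2.symm
    have hperi : ∀ i : ℕ, T^[p * i] m = m := by
      intro i
      rw [Function.iterate_mul]
      exact Function.iterate_fixed hper i
    have h3 : ∀ i : ℕ, f^[p * i + k] x ≤ m + 1 := by
      intro i
      have h4 := (h (p * i + k)).2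
      have h5 : T^[p * i + k] n = m := by
        rw [Function.iterate_add_apply, ← hm, hperi]
      rw [h5] at h4
      have h6 : 5 / (6 * (2 * (m : ℝ) + 1)) ≤ 1 := by
        rw [div_le_one (by positivity)]
        have : (1 : ℝ) ≤ m := by exact_mod_cast T_iter_pos hn k
        linarith
      linarith
    have h7 : Tendsto (fun i : ℕ => p * i + k) atTop atTop :=
      tendsto_atTop_mono (fun i => by
        show i ≤ p * i + k
        have := Nat.le_mul_of_pos_left i hp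
        omega) tendsto_id
    have h8 := (h1.comp h7).eventually_ge_atTop ((m : ℝ) + 2)
    obtain ⟨i, hi⟩ := h8.exists
    have h9 := h3 i
    have h10 : (m : ℝ) + 2 ≤ f^[p * i + k] x := hi
    linarith
  · intro h1
    have hinj : Function.Injective (fun k : ℕ => T^[k] n) := by
      intro i j hij
      apply h1 i j
      rw [zT, zT]
      exact_mod_cast hij
    have h2 : Tendsto (fun k : ℕ => T^[k] n) atTop atTop := by
      have h3 := hinj.tendsto_cofinite
      rwa [Nat.cofinite_eq_atTop] at h3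
    have h4 : Tendsto (fun k : ℕ => ((T^[k] n : ℕ) : ℝ)) atTop atTop :=
      tendsto_natCast_atTop_atTop.comp h2
    exact tendsto_atTop_mono (fun k => (h k).1) h4

theorem reach_mer {n m : ℕ} {p : ℕ} (hp : 0 < p) (hpm : T^[p] m = m) :
    Mer (n : ℤ) (m : ℤ) ↔ ∃ k, T^[k] n = m := by
  constructor
  · rintro ⟨i, j, hij⟩
    rw [zT, zT] at hij
    have hij' : T^[i] n = T^[j] m := by exact_mod_cast hij
    have hcp : ∀ l, T^[p * l] m = m := by
      intro l
      rw [Function.iterate_mul]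
      exact Function.iterate_fixed hpm l
    refine ⟨p * j - j + i, ?_⟩
    have hle : j ≤ p * j := Nat.le_mul_of_pos_left j hp
    rw [Function.iterate_add_apply, hij', ← Function.iterate_add_apply,
      Nat.sub_add_cancel hle, hcp]
  · rintro ⟨k, hk⟩
    exact ⟨k, 0, by rw [zT, hk]; rfl⟩

/-- the cycles, in the two notations -/
noncomputable def cycEquiv : {m : ℕ // IsCycleRep m} ≃ {a : ℤ // Pool.Agent.H723R2.LSW.IsCycleRep 1 a} where
  toFun m := ⟨(m.1 : ℤ), by
    obtain ⟨m, h1, ⟨p, hp, hpm⟩, h3⟩ := m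
    refine ⟨by show 0 < 1 * (m : ℤ); omega, ⟨p, hp, ?_⟩, fun j b hb => ?_⟩
    · rw [cast_iter, zT]; exact_mod_cast hpm
    · rw [cast_iter, zT] at hb
      rw [← hb]
      have := h3 j
      show 1 * (m : ℤ) ≤ 1 * ((T^[j] m : ℕ) : ℤ)
      omega⟩
  invFun a := ⟨a.1.toNat, by
    obtain ⟨a, h1, ⟨p, hp, hpm⟩, h3⟩ := a
    have ha : ((a.toNat : ℕ) : ℤ) = a := Int.toNat_of_nonneg (by omega)
    show IsCycleRep a.toNat
    refine ⟨by omega, ⟨p, hp, ?_⟩, fun j => ?_⟩
    · rw [cast_iter, ← ha, zT] at hpm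
      exact_mod_cast hpm
    · have h4 := h3 j _ (cast_iter.2 rfl)
      rw [← ha, zT] at h4
      omega⟩
  left_inv m := by
    apply Subtype.ext
    show ((m.1 : ℤ)).toNat = m.1
    omega
  right_inv a := by
    apply Subtype.ext
    show ((a.1.toNat : ℕ) : ℤ) = a.1
    have := a.2.1
    omega

theorem wild_T (x : ℤ) : Wild x ↔ Wild (Pool.Agent.H723R2.LSW.T x) :=
  ⟨Pool.Agent.H723R2.LSW.wild_mer ⟨1, 0, rfl⟩, Pool.Agent.H723R2.LSW.wild_mer ⟨0, 1, rfl⟩⟩

theorem mer_T (a x : ℤ) : Mer x a ↔ Mer (Pool.Agent.H723R2.LSW.T x) a := by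
  have h1 : Mer x (Pool.Agent.H723R2.LSW.T x) := ⟨1, 0, rfl⟩
  exact ⟨fun h => h1.symm.trans h, fun h => h1.trans h⟩

theorem one_mul_cast (n : ℕ) : (1 : ℤ) * (n : ℤ) = (n : ℤ) := one_mul _

/-- relative frequency of an invariant set of positive integers -/
theorem inv_rel {S : Set ℤ} (hS : ∀ n : ℤ, n ∈ S ↔ Pool.Agent.H723R2.LSW.T n ∈ S) {d : ℝ}
    (h : Pool.Agent.H723R2.LSW.HasDensity 1 S d) {P : ℕ → Prop} (hP : ∀ n : ℕ, Odd n → ((n : ℤ) ∈ S ↔ P n)) :
    Frequency P d := by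
  have h1 := Pool.Agent.Run7.h145.QL.RL_inv' Pool.Agent.Run7.h145.QL.QV (s := 1) (Or.inl rfl) hS h
  refine freq_of h1 1 (fun n _ ho => ?_)
  rw [one_mul_cast]
  exact hP n ho

theorem all_of_odd (hP : ∀ n : ℕ, n % 2 = 1 → ∃ k, T^[k] n = 1) : ∀ n : ℕ, 1 ≤ n → ∃ k, T^[k] n = 1 := by
  intro n
  induction n using Nat.strong_induction_on with
  | _ n ih =>
    intro hn
    rcases Nat.mod_two_eq_zero_or_one n with h | h
    · obtain ⟨k, hk⟩ := ih (n / 2) (by omega) (by omega)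
      refine ⟨k + 1, ?_⟩
      rw [Function.iterate_succ_apply]
      have : T n = n / 2 := by unfold T; rw [if_pos h]
      rw [this, hk]
    · exact hP n h

/-- THE CRITICAL POINTS OF CHAMBERLAND'S MAP ABOVE THE ODD VALUES OF QUADRATIC POLYNOMIALS.
For odd `n` let `c n` be the critical point of `f` in `(n, n + 1/2)`. In the sense of `Frequency` (odd
positive values `n` of quadratic polynomials with quadratic part of rank at least two, at the points of
boxes and of sets periodic modulo `q`, uniformly in the lower coefficients, the box, the range of values and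
the periodic set):
(1) the critical points `c n` of known fate (attracted by `A₁` or `A₂`, or ending in a point of
`[1.02, 1.05]` of period two) have frequency `β 1`; `β 1 = 1` if and only if all `c n` are of known fate,
and if and only if the `3x+1` conjecture holds;
(2) the orbit of `c n` is below `2` for the first time at a time `≡ b` modulo `q` with frequency
`β 1 / q`, and at such a time which is at most `2 log n / log (4/3) + x log 3 √(2 log n / (log (4/3))^3)`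
with frequency `β 1 Φ(x) / q`, `Φ` the standard normal distribution function; for every `η > 0` this time
is `(2 / log (4/3) ± η) log n` with frequency `β 1`;
(3) for every odd `m` the orbits of `c n` which merge with the orbit of `c m` (have, from some times on,
the same integral parts) have frequency `β m > 0`;
(4) the critical points `c n` whose orbits tend to infinity have frequency `w`, and `w = 0` if and only
if there are none; the frequencies `β m` of the cycles of the `3x+1` map and `w` add up to `1`.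
(5) Let the property `P` have the frequency `l` among the odd values of quadratic polynomials. Then
 (a) for every quadratic polynomial in `k` variables with quadratic part of rank at least two that takes
     a positive value, and which has an odd value, `P` holds at the proportion `l` of the points of the cubes
     `[-N, N] ^ k` at which the value is positive and odd;
 (b) `P (x ^ 2 + y ^ 2)` holds for the proportion `l` of the integral points with `x ^ 2 + y ^ 2 ≤ N` odd;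
 (c) `P (x y)` holds for the proportion `l` of the pairs of odd `x, y ≤ N`;
 (d) if `l > 0` and `β ^ 2 ≠ 4 α γ`, every large `n` for which `n - (α x ^ 2 + β x y + γ y ^ 2)` is odd for
     some integers `x`, `y` has at least `κ n` representations `n = α x ^ 2 + β x y + γ y ^ 2 + t` with
     positive `x`, `y` at most `√n` and odd `t` with the property `P`. -/
theorem result : ∃ (a : ℝ) (c : ℕ → ℝ) (w : ℝ) (β : ℕ → ℝ),
    (a ∈ Set.Icc (1.19 : ℝ) 1.196 ∧ f (f a) = a ∧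
      ∀ y, y = 1 ∨ y = 2 ∨ y = a ∨ y = f a → AttractingPoint y) ∧
    (∀ n : ℕ, n % 2 = 1 → (n : ℝ) < c n ∧ c n < n + 1 / 2 ∧ deriv f (c n) = 0 ∧
      ∀ x : ℝ, (n : ℝ) < x → x < n + 1 / 2 → deriv f x = 0 → x = c n) ∧
    (Frequency (fun n => KnownFate a (c n)) (β 1) ∧
      (β 1 = 1 ↔ ∀ n : ℕ, n % 2 = 1 → KnownFate a (c n)) ∧
      (β 1 = 1 ↔ ∀ n : ℕ, 1 ≤ n → ∃ k : ℕ, T^[k] n = 1)) ∧
    (∀ (q : ℕ) (b : ℤ), 1 ≤ q →
      Frequency (fun n => ∃ k : ℕ, Arrives k (c n) ∧ (k : ℤ) ≡ b [ZMOD q]) (β 1 / q) ∧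
      ∀ x : ℝ, Frequency (fun n => ∃ k : ℕ, Arrives k (c n) ∧ (k : ℝ) ≤ bound x n ∧
        (k : ℤ) ≡ b [ZMOD q]) (β 1 * Phi x / q)) ∧
    (∀ η : ℝ, 0 < η → Frequency (fun n => ∃ k : ℕ, Arrives k (c n) ∧
      |(k : ℝ) - 2 / Real.log (4 / 3) * Real.log n| ≤ η * Real.log n) (β 1)) ∧
    (∀ m : ℕ, m % 2 = 1 → 0 < β m ∧ Frequency (fun n => Merge (c n) (c m)) (β m)) ∧
    (Frequency (fun n => Tendsto (fun k : ℕ => f^[k] (c n)) atTop atTop) w ∧
      (w = 0 ↔ ∀ n : ℕ, n % 2 = 1 → ¬ Tendsto (fun k : ℕ => f^[k] (c n)) atTop atTop)) ∧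
    HasSum (fun m : {m : ℕ // IsCycleRep m} => β m) (1 - w) ∧
    (∀ (P : ℕ → Prop) (l : ℝ), Frequency P l →
      (∀ (k : ℕ) (A : Fin k → Fin k → ℤ), RankTwo A → ∀ (l' : Fin k → ℤ) (c' : ℤ) (x₀ z : Fin k → ℤ),
        0 < ∑ i, ∑ j, A i j * x₀ i * x₀ j → Odd (Val A l' c' z) →
        Tendsto (fun N : ℕ => ({x : Fin k → ℤ | (∀ i, |x i| ≤ N) ∧ (0 < Val A l' c' x ∧ Odd (Val A l' c' x)) ∧
          P (Val A l' c' x).toNat}.ncard : ℝ) /
          {x : Fin k → ℤ | (∀ i, |x i| ≤ N) ∧ (0 < Val A l' c' x ∧ Odd (Val A l' c' x))}.ncard) atTop (𝓝 l)) ∧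
      Tendsto (fun N : ℕ => ({p : ℤ × ℤ | Odd (p.1 ^ 2 + p.2 ^ 2) ∧ p.1 ^ 2 + p.2 ^ 2 ≤ N ∧
        P (p.1 ^ 2 + p.2 ^ 2).toNat}.ncard : ℝ) /
        {p : ℤ × ℤ | Odd (p.1 ^ 2 + p.2 ^ 2) ∧ p.1 ^ 2 + p.2 ^ 2 ≤ N}.ncard) atTop (𝓝 l) ∧
      Tendsto (fun N : ℕ => ({p : ℕ × ℕ | Odd p.1 ∧ Odd p.2 ∧ p.1 ≤ N ∧ p.2 ≤ N ∧
        P (p.1 * p.2)}.ncard : ℝ) / {p : ℕ × ℕ | Odd p.1 ∧ Odd p.2 ∧ p.1 ≤ N ∧ p.2 ≤ N}.ncard) atTop (𝓝 l) ∧
      (0 < l → ∀ α β γ : ℤ, β ^ 2 ≠ 4 * α * γ → ∃ κ : ℝ, 0 < κ ∧ ∃ n₀ : ℕ, ∀ n : ℕ, n₀ ≤ n →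
        (∃ x y : ℤ, Odd (n - (α * x ^ 2 + β * x * y + γ * y ^ 2))) →
        κ * n ≤ {p : ℤ × ℤ | (0 < p.1 ∧ p.1 ^ 2 ≤ n) ∧ (0 < p.2 ∧ p.2 ^ 2 ≤ n) ∧
          ∃ t : ℕ, Odd t ∧ P t ∧ (n : ℤ) = (α * p.1 ^ 2 + β * p.1 * p.2 + γ * p.2 ^ 2) + t}.ncard)) := by
  obtain ⟨a, ha, hfa, _, hattr, _, _, hodd⟩ := Pool.Agent.Results.MP_a247fa_nt.OddCriticalPoints.result
  choose! c hc1 hc2 hc3 hc4 hc5 hc6 hc7 using hodd
  have hfol : ∀ n : ℕ, n % 2 = 1 → Fol n (c n) := fun n hn k => hc5 n hn k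
  have hkf : ∀ n : ℕ, n % 2 = 1 → (KnownFate a (c n) ↔ ∃ k, T^[k] n = 1) := fun n hn => (hc6 n hn).symm
  obtain ⟨w, β, hw, hw0, hmer, hbas, hsum⟩ := Pool.Agent.H723R2.LSW.main (s := 1) (Or.inl rfl)
  have hmerD : ∀ a : ℤ, 0 < a → Pool.Agent.H723R2.LSW.HasDensity 1 {n | Mer n a} (β a) := by
    intro a ha
    have h1 := (hmer a (by omega)).2
    have e : {n : ℤ | ∃ i j : ℕ, Pool.Agent.H723R2.LSW.f₀^[i] (n : ℂ) = Pool.Agent.H723R2.LSW.f₀^[j] (a : ℂ)}
        = {n | Mer n a} := by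
      ext n
      show (∃ i j : ℕ, Pool.Agent.H723R2.LSW.f₀^[i] (n : ℂ) = Pool.Agent.H723R2.LSW.f₀^[j] (a : ℂ)) ↔ Mer n a
      constructor
      · rintro ⟨i, j, h⟩
        rw [Pool.Agent.H723R2.LSW.f₀_iter, Pool.Agent.H723R2.LSW.f₀_iter] at h
        exact ⟨i, j, by exact_mod_cast h⟩
      · rintro ⟨i, j, h⟩
        exact ⟨i, j, by rw [Pool.Agent.H723R2.LSW.f₀_iter, Pool.Agent.H723R2.LSW.f₀_iter, h]⟩
    rw [← e]
    exact h1
  have hwD : Pool.Agent.H723R2.LSW.HasDensity 1 {n | Wild n} w := by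
    have e : {n : ℤ | Pool.Agent.H384R2.Fatou.IsWanderingDomain Pool.Agent.H723R2.LSW.f₀
        (Pool.Agent.H384R2.Fatou.FatouComponent Pool.Agent.H723R2.LSW.f₀ n)} = {n | Wild n} := by
      ext n; exact Pool.Agent.H723R2.LSW.wandering_iff n
    rw [← e]; exact hw
  obtain ⟨δ, h0, h1, h2, h3, h4, h5⟩ := Pool.Agent.Run7.h145.QL.rel_laws Pool.Agent.Run7.h145.QL.QV
  have hT1 : T^[2] 1 = 1 := rfl
  have hδ : δ = β 1 := by
    refine tendsto_nhds_unique h3 (Pool.Agent.H499R2.LT.Dn_iff (fun n _ => ?_)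
      (Pool.Agent.Run7.h145.QL.dn_side (s := 1) (Or.inl rfl) (hmerD 1 (by norm_num))))
    rw [one_mul_cast]
    exact reach_mer (m := 1) (by norm_num : 0 < 2) hT1
  -- entrance into `{1}`
  have hF : ∀ y ∈ ({1} : Finset ℤ), y % 2 = 1 := fun y hy => by
    rw [Finset.mem_singleton] at hy; rw [hy]; norm_num
  have hB : Pool.Agent.Run7.h145.QL.Bd ({1} : Finset ℤ) 2 := by
    intro y hy i
    rw [Finset.mem_singleton] at hy
    rw [hy]
    have h6 := zT i 1
    have h7 : (Pool.Agent.H499R2.ND.Td 1)^[i] 1 = ((T^[i] 1 : ℕ) : ℤ) := h6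
    rw [h7]
    rcases Pool.Agent.Run7.h145.QL.Tn_one_iter i with h8 | h8
    · have h9 : T^[i] 1 = 1 := h8
      rw [h9]; norm_num
    · have h9 : T^[i] 1 = 2 := h8
      rw [h9]; norm_num
  have hEk : ∀ (k n : ℕ), Pool.Agent.W26.HN.E {1} k (1 * (n : ℤ)) ↔ Pool.Agent.H499R2.HL.H k n := by
    intro k n
    show ((Pool.Agent.H723R2.LSW.T^[k] (1 * (n : ℤ)) ∈ ({1} : Finset ℤ)) ∧
      ∀ i < k, Pool.Agent.H723R2.LSW.T^[i] (1 * (n : ℤ)) ∉ ({1} : Finset ℤ)) ↔ (T^[k] n = 1 ∧ ∀ i < k, T^[i] n ≠ 1)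
    rw [one_mul_cast, Finset.mem_singleton, zT]
    refine and_congr (by exact_mod_cast Iff.rfl) (forall₂_congr fun i _ => not_congr ?_)
    rw [Finset.mem_singleton, zT]
    exact_mod_cast Iff.rfl
  have hE : Pool.Agent.H499R2.ND.Dn (fun n : ℕ => ∃ k : ℕ, Pool.Agent.W26.HN.E {1} k (1 * n)) δ := by
    refine Pool.Agent.H499R2.LT.Dn_iff (fun n _ => ?_) h3
    rw [Pool.Agent.Run7.h145.QL.hit_iff n]
    exact exists_congr fun k => (hEk k n).symm
  obtain ⟨_, _, _, hlaw⟩ := Pool.Agent.Run7.h145.QL.rel_entr_k Pool.Agent.Run7.h145.QL.QV (s := 1) (Or.inl rfl) hF hB hE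
  refine ⟨a, c, w, fun m => β m, ⟨ha, hfa, hattr⟩, fun n hn => ⟨hc1 n hn, hc2 n hn, hc3 n hn, hc4 n hn⟩,
    ⟨?_, ?_, ?_⟩, fun q b hq => ⟨?_, fun x => ?_⟩, fun η hη => ?_, fun m hm => ⟨?_, ?_⟩, ⟨?_, ?_⟩, ?_,
    fun P l hP => ⟨?_, ?_, ?_, ?_⟩⟩
  · -- (1)
    have h6 := freq_of h4 1 (Q := fun n => KnownFate a (c n)) (fun n _ ho => by
      rw [hkf n (Nat.odd_iff.1 ho)]
      exact (Pool.Agent.Run7.h145.QL.hit_iff n).symm)
    rw [hδ] at h6
    exact h6
  · show β 1 = 1 ↔ _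
    rw [← hδ, h2]
    constructor
    · intro h n hn
      exact (hkf n hn).2 (h n (by omega))
    · intro h
      exact all_of_odd fun n hn => (hkf n hn).1 (h n hn)
  · show β 1 = 1 ↔ _
    rw [← hδ]
    exact h2
  · -- (2)
    have h6 := freq_of (hlaw q b 0 hq).2.1 1
      (Q := fun n => ∃ k : ℕ, Arrives k (c n) ∧ (k : ℤ) ≡ b [ZMOD q]) (fun n hn ho => by
        refine exists_congr fun k => ?_
        rw [hEk, arrives_iff hn (hfol n (Nat.odd_iff.1 ho))])
    rw [hδ] at h6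
    exact h6
  · have h6 := freq_of ((hlaw q b 0 hq).2.2 x).2 1
      (Q := fun n => ∃ k : ℕ, Arrives k (c n) ∧ (k : ℝ) ≤ bound x n ∧ (k : ℤ) ≡ b [ZMOD q]) (fun n hn ho => by
        refine exists_congr fun k => ?_
        rw [hEk, arrives_iff hn (hfol n (Nat.odd_iff.1 ho))]
        exact Iff.rfl)
    have e : δ / (q : ℝ) * Pool.Agent.H499R2.ND.Phi x = (fun m : ℕ => β m) 1 * Phi x / q := by
      unfold Phi
      rw [← Pool.Agent.H499R2.ND.phi_cdf]
      show _ = β 1 * _ / _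
      rw [hδ]
      ring
    rw [e] at h6
    exact h6
  · have hrr := Pool.Agent.H499R2.HL.rr_pos
    have hl3 : 0 < Real.log 3 := Real.log_pos (by norm_num)
    have h6 := Pool.Agent.Run7.h145.QL.lln Pool.Agent.Run7.h145.QL.QV (f := fun k _ => (k : ℝ)) (α := 2 / Real.log (4 / 3))
      (σ := Real.log 3 * Pool.Agent.H499R2.HL.rr) (δ := δ) (η := η) (by positivity) h0.le h1 hη (fun x => by
        have h7 := ((h5 1 0 0 le_rfl).2.2 x).1
        have e1 : δ / ((1 : ℕ) : ℝ) ^ 2 * Pool.Agent.H499R2.ND.Phi x = δ * Pool.Agent.H499R2.ND.Phi x := by simp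
        rw [e1] at h7
        refine Pool.Agent.Run7.h145.QL.QV.congr 0 (fun n _ => exists_congr fun k => and_congr_right fun _ => ?_) h7
        rw [← Pool.Agent.Run7.h145.QL.bk_thr]
        simp [Int.modEq_one]) h4
    have h7 := freq_of h6 1 (Q := fun n => ∃ k : ℕ, Arrives k (c n) ∧
      |(k : ℝ) - 2 / Real.log (4 / 3) * Real.log n| ≤ η * Real.log n) (fun n hn ho => by
        refine exists_congr fun k => ?_
        rw [arrives_iff hn (hfol n (Nat.odd_iff.1 ho))])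
    rw [hδ] at h7
    exact h7
  · exact (hmer m (by omega)).1
  · -- (3)
    refine inv_rel (fun n => mer_T (m : ℤ) n) (hmerD m (by omega)) (fun n ho => ?_)
    rw [merge_iff ho.pos (by omega) (hfol n (Nat.odd_iff.1 ho)) (hfol m hm)]
    exact Iff.rfl
  · -- (4)
    refine inv_rel wild_T hwD (fun n ho => ?_)
    rw [fol_tendsto ho.pos (hfol n (Nat.odd_iff.1 ho))]
    exact Iff.rfl
  · rw [hw0]
    constructor
    · intro h n hn hcon
      rw [fol_tendsto (by omega) (hfol n hn), ← Pool.Agent.H723R2.LSW.wandering_iff] at hcon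
      exact h n (by omega) hcon
    · intro h n hn hcon
      rw [Pool.Agent.H723R2.LSW.wandering_iff] at hcon
      -- go to the odd part
      have key : ∀ m : ℕ, 1 ≤ m → Wild (m : ℤ) → False := by
        intro m
        induction m using Nat.strong_induction_on with
        | _ m ih =>
          intro hm hwm
          rcases Nat.mod_two_eq_zero_or_one m with h6 | h6
          · refine ih (m / 2) (by omega) (by omega) ?_
            have h7 := (wild_T (m : ℤ)).1 hwm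
            have h8 : Pool.Agent.H723R2.LSW.T (m : ℤ) = ((m / 2 : ℕ) : ℤ) := by
              unfold Pool.Agent.H723R2.LSW.T
              rw [if_pos (by omega)]
              push_cast
              rfl
            rw [h8] at h7
            exact h7
          · exact h m h6 ((fol_tendsto hm (hfol m h6)).2 hwm)
      obtain ⟨m, rfl⟩ := Int.eq_ofNat_of_zero_le (show 0 ≤ n by omega)
      exact key m (by omega) hcon
  · have h6 := cycEquiv.hasSum_iff.2 hsum
    exact h6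
  · intro k A hA l' c' x₀ z hx hz
    exact Pool.Agent.Run7.h145.QL.X.cubes_odd hP hA l' c' hx hz
  · exact Pool.Agent.Run7.h145.QL.X.two_squares_odd hP
  · exact Pool.Agent.Run7.h145.QL.X.products_odd hP
  · intro hf α β γ hd
    exact Pool.Agent.Run7.h145.QL.X.represent_odd hf hP hd

end Pool.Agent.Results.MP_a247fa_nt.QuadraticValues
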